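import Mathlib

/-!
# Combinatorics of branches of the binary tree
-/

set_option autoImplicit false

namespace Pool.Agent.Helper687.MU

open Topology

theorem not_countable_cantor : ¬ (Set.univ : Set (ℕ → Bool)).Countable := by
  intro h
  rw [Set.countable_univ_iff] at h
  obtain ⟨f, hf⟩ := exists_surjective_nat (ℕ → Bool)
  obtain ⟨n, hn⟩ := hf (fun n => !f n n)
  have := congrFun hn n
  simp at this

/-- An assignment of functions to the points of the Cantor space is bounded on an infinite set. -/
theorem exists_infinite_bounded (κ : (ℕ → Bool) → ℕ → ℕ) :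
    ∃ (S : Set (ℕ → Bool)) (f : ℕ → ℕ), S.Infinite ∧ ∀ α ∈ S, ∀ m, κ α m ≤ f m := by
  classical
  obtain ⟨s, hs⟩ : ∃ s : ℕ → ℕ, ∀ N ∈ 𝓝 s, ¬ (κ ⁻¹' N).Countable := by
    by_contra hcon
    push Not at hcon
    choose N hN hN' using hcon
    obtain ⟨t, ht, ht'⟩ := TopologicalSpace.countable_cover_nhds hN
    apply not_countable_cantor
    have h1 : (Set.univ : Set (ℕ → Bool)) = ⋃ x ∈ t, κ ⁻¹' (N x) := by
      rw [← Set.preimage_iUnion₂, ht', Set.preimage_univ]
    rw [h1]
    exact ht.biUnion (fun x _ => hN' x)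
  have hinf : ∀ m, {α | ∀ j < m, κ α j = s j}.Infinite := by
    intro m
    have h1 : PiNat.cylinder s m ∈ 𝓝 s :=
      (PiNat.isOpen_cylinder (fun _ => ℕ) s m).mem_nhds (PiNat.self_mem_cylinder s m)
    have h2 := hs _ h1
    intro hfin
    exact h2 hfin.countable
  -- choose the points
  obtain ⟨p, hp1, hp2⟩ := exists_seq_of_forall_finset_exists
    (fun q : ℕ × (ℕ → Bool) => ∀ j < q.1, κ q.2 j = s j)
    (fun q q' => q.1 < q'.1 ∧ q.2 ≠ q'.2) (by
      intro t _
      obtain ⟨m, hm⟩ : ∃ m, ∀ q ∈ t, q.1 < m :=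
        ⟨t.sup Prod.fst + 1, fun q hq => Nat.lt_succ_of_le (Finset.le_sup (f := Prod.fst) hq)⟩
      obtain ⟨α, hα1, hα2⟩ := (hinf m).exists_notMem_finset (t.image Prod.snd)
      refine ⟨(m, α), hα1, fun q hq => ⟨hm q hq, ?_⟩⟩
      intro h
      exact hα2 (Finset.mem_image.2 ⟨q, hq, h⟩))
  have hmono : StrictMono fun n => (p n).1 := fun a b hab => (hp2 a b hab).1
  have hge : ∀ n, n ≤ (p n).1 := fun n => hmono.id_le n
  have hinj : Function.Injective fun n => (p n).2 := by
    intro a b hab
    by_contra hne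
    rcases lt_or_gt_of_ne hne with h | h
    · exact (hp2 a b h).2 hab
    · exact (hp2 b a h).2 hab.symm
  refine ⟨Set.range fun n => (p n).2, fun m => s m + ∑ i ∈ Finset.range (m + 1), κ (p i).2 m,
    Set.infinite_range_of_injective hinj, ?_⟩
  rintro α ⟨n, rfl⟩ m
  by_cases h : m < n
  · have := hp1 n m (h.trans_le (hge n))
    show κ (p n).2 m ≤ s m + ∑ i ∈ Finset.range (m + 1), κ (p i).2 m
    omega
  · have h1 : n ∈ Finset.range (m + 1) := Finset.mem_range.2 (by omega)
    have h2 : κ (p n).2 m ≤ ∑ i ∈ Finset.range (m + 1), κ (p i).2 m :=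
      Finset.single_le_sum (f := fun i => κ (p i).2 m) (fun _ _ => Nat.zero_le _) h1
    show κ (p n).2 m ≤ s m + ∑ i ∈ Finset.range (m + 1), κ (p i).2 m
    omega

/-- the prefix of length `n` -/
def pre (α : ℕ → Bool) (n : ℕ) : List Bool := (List.range n).map α

theorem pre_length (α : ℕ → Bool) (n : ℕ) : (pre α n).length = n := by simp [pre]

theorem pre_eq_iff (α β : ℕ → Bool) (n : ℕ) : pre α n = pre β n ↔ ∀ j < n, α j = β j := by
  rw [pre, pre, List.map_inj_left]
  simp

/-- the nodes at which the branch `α` turns in the direction `b` -/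
def JJ (b : Bool) (α : ℕ → Bool) : Set ℕ := {i | ∃ n, i = Encodable.encode (pre α n) ∧ α n = b}

theorem JJ_inter {α β : ℕ → Bool} {n : ℕ} (h : ∀ j < n, α j = β j) (h1 : α n = false)
    (h2 : β n = true) (i : ℕ) :
    (i ∈ JJ false α ∧ i ∈ JJ true β) ↔ i = Encodable.encode (pre α n) := by
  constructor
  · rintro ⟨⟨p, hp, hp'⟩, ⟨r, hr, hr'⟩⟩
    have h3 : pre α p = pre β r := Encodable.encode_injective (hp.symm.trans hr)
    have h4 : p = r := by
      have := congrArg List.length h3
      rwa [pre_length, pre_length] at this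
    subst h4
    rw [pre_eq_iff] at h3
    have h5 : ¬ p < n := by
      intro hlt
      have := h p hlt
      rw [hp', hr'] at this
      exact absurd this (by decide)
    have h6 : ¬ n < p := by
      intro hlt
      have := h3 n hlt
      rw [h1, h2] at this
      exact absurd this (by decide)
    have : p = n := by omega
    rw [hp, this]
  · rintro rfl
    refine ⟨⟨n, rfl, h1⟩, ⟨n, ?_, h2⟩⟩
    rw [(pre_eq_iff α β n).2 h]

/-- long words have large codes -/
theorem exists_len (K : ℕ) : ∃ M, ∀ l : List Bool, M ≤ l.length → K ≤ Encodable.encode l := by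
  have hfin : {l : List Bool | Encodable.encode l < K}.Finite := by
    have := (Set.finite_Iio K).preimage (f := (Encodable.encode : List Bool → ℕ))
      (Encodable.encode_injective.injOn)
    exact this
  obtain ⟨M, hM⟩ : ∃ M, ∀ l ∈ hfin.toFinset, l.length < M :=
    ⟨hfin.toFinset.sup List.length + 1, fun l hl =>
      Nat.lt_succ_of_le (Finset.le_sup (f := List.length) hl)⟩
  refine ⟨M, fun l hl => ?_⟩
  by_contra hcon
  push Not at hcon
  have := hM l (hfin.mem_toFinset.2 hcon)
  omega

/-- an infinite set of branches contains two branches splitting at a node with large code -/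
theorem exists_split {S : Set (ℕ → Bool)} (hS : S.Infinite) (K : ℕ) :
    ∃ α ∈ S, ∃ β ∈ S, ∃ i, K ≤ i ∧ ∀ j, (j ∈ JJ false α ∧ j ∈ JJ true β) ↔ j = i := by
  obtain ⟨M, hM⟩ := exists_len K
  obtain ⟨α, hα, β, hβ, hne, heq⟩ := hS.exists_ne_map_eq_of_mapsTo
    (f := fun α : ℕ → Bool => fun j : Fin M => α j) (t := Set.univ)
    (fun _ _ => Set.mem_univ _) Set.finite_univ
  have hex : ∃ n, α n ≠ β n := Function.ne_iff.1 hne
  classical
  set n := Nat.find hex with hn
  have hn1 : α n ≠ β n := Nat.find_spec hex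
  have hn2 : ∀ j < n, α j = β j := fun j hj => by
    by_contra h
    exact Nat.find_min hex hj h
  have hMn : M ≤ n := by
    by_contra hcon
    push Not at hcon
    exact hn1 (congrFun heq ⟨n, hcon⟩)
  cases ha : α n with
  | false =>
    have hb : β n = true := by
      cases hb : β n with
      | false => exact absurd (ha.trans hb.symm) hn1
      | true => rfl
    exact ⟨α, hα, β, hβ, _, hM _ (by rw [pre_length]; exact hMn), JJ_inter hn2 ha hb⟩
  | true =>
    have hb : β n = false := by
      cases hb : β n with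
      | false => rfl
      | true => exact absurd (ha.trans hb.symm) hn1
    exact ⟨β, hβ, α, hα, _, hM _ (by rw [pre_length]; exact hMn),
      JJ_inter (fun j hj => (hn2 j hj).symm) hb ha⟩

end Pool.Agent.Helper687.MU
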