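import Pool.Agent.Helper687_MU.Defs

/-!
# Uniform approximation by short combinations of permutations
-/

set_option autoImplicit false

namespace Pool.Agent.Helper687.MU

open Filter Topology Matrix
open scoped Matrix.Norms.L2Operator

variable (U : Ultrafilter ℕ)

theorem nrmU_nonneg (x : MatUlt U) : 0 ≤ nrmU U x := by
  obtain ⟨x, rfl⟩ := cls_surjective U x
  exact ge_of_tendsto' (tendsto_nrmU U x) (fun n => nrm2_nonneg _)

theorem nrmU_add_le (x y : MatUlt U) : nrmU U (x + y) ≤ nrmU U x + nrmU U y := by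
  obtain ⟨x, rfl⟩ := cls_surjective U x
  obtain ⟨y, rfl⟩ := cls_surjective U y
  rw [← map_add]
  exact le_of_tendsto_of_tendsto' (tendsto_nrmU U (x + y))
    ((tendsto_nrmU U x).add (tendsto_nrmU U y)) (fun n => nrm2_add_le _ _)

theorem nrmU_smul (c : ℂ) (x : MatUlt U) : nrmU U (c • x) = ‖c‖ * nrmU U x := by
  obtain ⟨x, rfl⟩ := cls_surjective U x
  rw [← map_smul]
  refine tendsto_nhds_unique (tendsto_nrmU U (c • x)) ?_
  refine ((tendsto_nrmU U x).const_mul ‖c‖).congr (fun n => ?_)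
  exact (nrm2_smul _ _).symm

theorem nrmU_zero : nrmU U 0 = 0 := by
  have := nrmU_smul U 0 0
  simpa using this

theorem nrmU_neg (x : MatUlt U) : nrmU U (-x) = nrmU U x := by
  have := nrmU_smul U (-1) x
  simpa using this

theorem nrmU_sub_comm (x y : MatUlt U) : nrmU U (x - y) = nrmU U (y - x) := by
  rw [← nrmU_neg, neg_sub]

theorem nrmU_star (x : MatUlt U) : nrmU U (star x) = nrmU U x := by
  obtain ⟨x, rfl⟩ := cls_surjective U x
  rw [star_cls]
  refine tendsto_nhds_unique (tendsto_nrmU U (star x)) ?_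
  refine (tendsto_nrmU U x).congr (fun n => ?_)
  exact (nrm2_star _).symm

theorem nrmU_sum_le {ι : Type*} (s : Finset ι) (f : ι → MatUlt U) :
    nrmU U (∑ i ∈ s, f i) ≤ ∑ i ∈ s, nrmU U (f i) := by
  classical
  induction s using Finset.induction_on with
  | empty => simp [nrmU_zero]
  | insert a s ha ih =>
    rw [Finset.sum_insert ha, Finset.sum_insert ha]
    exact (nrmU_add_le U _ _).trans (by linarith)

theorem nrmU_mul_le (x : BddSeq) {C : ℝ} (hC : ∀ n, ‖x.1 n‖ ≤ C) (y : MatUlt U) :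
    nrmU U (cls U x * y) ≤ C * nrmU U y := by
  obtain ⟨y, rfl⟩ := cls_surjective U y
  rw [← map_mul]
  refine le_of_tendsto_of_tendsto' (tendsto_nrmU U (x * y)) ((tendsto_nrmU U y).const_mul C)
    (fun n => ?_)
  exact (nrm2_mul_le _ _).trans (mul_le_mul_of_nonneg_right (hC n) (nrm2_nonneg _))

theorem nrmU_mul_le' (x : BddSeq) {C : ℝ} (hC : ∀ n, ‖x.1 n‖ ≤ C) (y : MatUlt U) :
    nrmU U (y * cls U x) ≤ C * nrmU U y := by
  obtain ⟨y, rfl⟩ := cls_surjective U y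
  rw [← map_mul]
  refine le_of_tendsto_of_tendsto' (tendsto_nrmU U (y * x)) ((tendsto_nrmU U y).const_mul C)
    (fun n => ?_)
  refine (nrm2_mul_le' _ _).trans ?_
  rw [mul_comm]
  exact mul_le_mul_of_nonneg_right (hC n) (nrm2_nonneg _)

theorem exists_mul_bound (x : MatUlt U) : ∃ C : ℕ, (∀ y, nrmU U (x * y) ≤ C * nrmU U y) ∧
    ∀ y, nrmU U (star x * y) ≤ C * nrmU U y := by
  obtain ⟨x, rfl⟩ := cls_surjective U x
  obtain ⟨C, hC⟩ := x.2
  obtain ⟨N, hN⟩ := exists_nat_ge C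
  refine ⟨N, fun y => nrmU_mul_le U x (fun n => (hC n).trans hN) y, fun y => ?_⟩
  rw [star_cls]
  refine nrmU_mul_le U (star x) (fun n => ?_) y
  show ‖star (x.1 n)‖ ≤ N
  rw [norm_star]; exact (hC n).trans hN

theorem norm_perm_le {n : ℕ} (σ : Equiv.Perm (Fin n)) : ‖σ.permMatrix ℂ‖ ≤ 1 := by
  have h : star (σ.permMatrix ℂ) * σ.permMatrix ℂ = 1 := by
    rw [Matrix.star_eq_conjTranspose, Matrix.conjTranspose_permMatrix, ← Matrix.permMatrix_mul]
    simp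
  have h2 : ‖σ.permMatrix ℂ‖ * ‖σ.permMatrix ℂ‖ ≤ 1 := by
    rw [← CStarRing.norm_star_mul_self, h]
    exact norm_one_le n
  nlinarith [norm_nonneg (σ.permMatrix ℂ)]

theorem permCls_mul (σ τ : (n : ℕ) → Equiv.Perm (Fin n)) :
    permCls U σ * permCls U τ = permCls U (fun n => τ n * σ n) := by
  rw [permCls, permCls, permCls, ← map_mul]
  congr 1
  apply Subtype.ext
  funext n
  exact (Matrix.permMatrix_mul (σ := τ n) (τ := σ n) (R := ℂ)).symm

theorem permCls_star (σ : (n : ℕ) → Equiv.Perm (Fin n)) :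
    star (permCls U σ) = permCls U (fun n => (σ n)⁻¹) := by
  rw [permCls, permCls, star_cls]
  congr 1
  apply Subtype.ext
  funext n
  exact Matrix.conjTranspose_permMatrix (σ := σ n)

theorem permCls_one : permCls U (fun _ => 1) = 1 := by
  rw [permCls, ← map_one (cls U)]
  congr 1
  apply Subtype.ext
  funext n
  exact Matrix.permMatrix_one

theorem nrmU_mul_permCls (x : MatUlt U) (σ : (n : ℕ) → Equiv.Perm (Fin n)) :
    nrmU U (x * permCls U σ) ≤ nrmU U x := by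
  have := nrmU_mul_le' U (⟨fun n => (σ n).permMatrix ℂ, ⟨1, fun n => norm_perm_le _⟩⟩ : BddSeq)
    (C := 1) (fun n => norm_perm_le _) x
  rw [one_mul] at this
  exact this

/-- combinations of at most `K` permutations with coefficients at most `K` -/
def Cx (K : ℕ) : Set (MatUlt U) := {a | ∃ (ι : Type) (_ : Fintype ι) (c : ι → ℂ)
  (σ : ι → (n : ℕ) → Equiv.Perm (Fin n)), Fintype.card ι ≤ K ∧ (∀ i, ‖c i‖ ≤ K) ∧
    a = ∑ i, c i • permCls U (σ i)}

theorem Cx_mono {K L : ℕ} (h : K ≤ L) : Cx U K ⊆ Cx U L := by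
  rintro a ⟨ι, hι, c, σ, h1, h2, h3⟩
  exact ⟨ι, hι, c, σ, h1.trans h, fun i => (h2 i).trans (by exact_mod_cast h), h3⟩

theorem Cx_mul {K L : ℕ} {a b : MatUlt U} (ha : a ∈ Cx U K) (hb : b ∈ Cx U L) :
    a * b ∈ Cx U (K * L) := by
  obtain ⟨ι, hι, c, σ, h1, h2, rfl⟩ := ha
  obtain ⟨κ, hκ, d, τ, k1, k2, rfl⟩ := hb
  refine ⟨ι × κ, inferInstance, fun p => c p.1 * d p.2, fun p n => τ p.2 n * σ p.1 n, ?_, ?_, ?_⟩
  · rw [Fintype.card_prod]; exact Nat.mul_le_mul h1 k1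
  · intro p
    rw [norm_mul]
    push_cast
    exact mul_le_mul (h2 _) (k2 _) (norm_nonneg _) (Nat.cast_nonneg _)
  · rw [Finset.sum_mul_sum, Fintype.sum_prod_type]
    refine Finset.sum_congr rfl fun i _ => Finset.sum_congr rfl fun j _ => ?_
    rw [smul_mul_smul_comm, permCls_mul]

theorem Cx_add {K L : ℕ} {a b : MatUlt U} (ha : a ∈ Cx U K) (hb : b ∈ Cx U L) :
    a + b ∈ Cx U (K + L) := by
  obtain ⟨ι, hι, c, σ, h1, h2, rfl⟩ := ha
  obtain ⟨κ, hκ, d, τ, k1, k2, rfl⟩ := hb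
  refine ⟨ι ⊕ κ, inferInstance, Sum.elim c d, Sum.elim σ τ, ?_, ?_, ?_⟩
  · rw [Fintype.card_sum]; exact Nat.add_le_add h1 k1
  · rintro (i | j)
    · push_cast
      exact (h2 i).trans (by simp)
    · push_cast
      exact (k2 j).trans (by simp)
  · rw [Fintype.sum_sum_type]
    rfl

theorem Cx_star {K : ℕ} {a : MatUlt U} (ha : a ∈ Cx U K) : star a ∈ Cx U K := by
  obtain ⟨ι, hι, c, σ, h1, h2, rfl⟩ := ha
  refine ⟨ι, hι, fun i => star (c i), fun i n => (σ i n)⁻¹, h1, ?_, ?_⟩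
  · intro i
    rw [norm_star]; exact h2 i
  · rw [star_sum]
    refine Finset.sum_congr rfl fun i _ => ?_
    rw [star_smul, permCls_star]

theorem Cx_nrm {K : ℕ} {a : MatUlt U} (ha : a ∈ Cx U K) (x : MatUlt U) :
    nrmU U (x * a) ≤ (K : ℝ) ^ 2 * nrmU U x := by
  obtain ⟨ι, hι, c, σ, h1, h2, rfl⟩ := ha
  rw [Finset.mul_sum]
  calc nrmU U (∑ i, x * c i • permCls U (σ i)) ≤ ∑ i, nrmU U (x * c i • permCls U (σ i)) :=
        nrmU_sum_le U _ _
    _ ≤ ∑ _i : ι, (K : ℝ) * nrmU U x := by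
        refine Finset.sum_le_sum fun i _ => ?_
        rw [mul_smul_comm, nrmU_smul]
        exact mul_le_mul (h2 i) (nrmU_mul_permCls U x _) (nrmU_nonneg U _) (Nat.cast_nonneg _)
    _ = (Fintype.card ι : ℝ) * ((K : ℝ) * nrmU U x) := by simp
    _ ≤ (K : ℝ) * ((K : ℝ) * nrmU U x) := by
        apply mul_le_mul_of_nonneg_right
        · exact_mod_cast h1
        · exact mul_nonneg (Nat.cast_nonneg _) (nrmU_nonneg U _)
    _ = (K : ℝ) ^ 2 * nrmU U x := by ring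

/-- the elements approximable by combinations of permutations -/
def Appr (x : MatUlt U) : Prop := ∀ ε : ℝ, 0 < ε → ∃ K : ℕ, ∃ a ∈ Cx U K, nrmU U (x - a) < ε

theorem nrmU_mul_sub_le {x y a b : MatUlt U} {C K : ℕ}
    (hC : ∀ z, nrmU U (x * z) ≤ C * nrmU U z) (hb : b ∈ Cx U K) :
    nrmU U (x * y - a * b) ≤ C * nrmU U (y - b) + (K : ℝ) ^ 2 * nrmU U (x - a) := by
  have h : x * y - a * b = x * (y - b) + (x - a) * b := by noncomm_ring
  rw [h]
  exact (nrmU_add_le U _ _).trans (add_le_add (hC _) (Cx_nrm U hb _))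

theorem Appr.mul {x y : MatUlt U} (hx : Appr U x) (hy : Appr U y) : Appr U (x * y) := by
  intro ε hε
  obtain ⟨C, hC, -⟩ := exists_mul_bound U x
  obtain ⟨L, b, hb, hb'⟩ := hy (ε / (2 * (C + 1))) (by positivity)
  obtain ⟨K, a, ha, ha'⟩ := hx (ε / (2 * ((L : ℝ) ^ 2 + 1))) (by positivity)
  refine ⟨K * L, a * b, Cx_mul U ha hb, ?_⟩
  refine (nrmU_mul_sub_le U hC hb).trans_lt ?_
  have h1 : (C : ℝ) * nrmU U (y - b) ≤ (C : ℝ) * (ε / (2 * (C + 1))) :=
    mul_le_mul_of_nonneg_left hb'.le (Nat.cast_nonneg _)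
  have h2 : (L : ℝ) ^ 2 * nrmU U (x - a) ≤ (L : ℝ) ^ 2 * (ε / (2 * ((L : ℝ) ^ 2 + 1))) :=
    mul_le_mul_of_nonneg_left ha'.le (by positivity)
  have h3 : (C : ℝ) * (ε / (2 * (C + 1))) < ε / 2 := by
    rw [mul_div_assoc', div_lt_div_iff₀ (by positivity) (by positivity)]
    nlinarith [(Nat.cast_nonneg C : (0 : ℝ) ≤ C)]
  have h4 : (L : ℝ) ^ 2 * (ε / (2 * ((L : ℝ) ^ 2 + 1))) < ε / 2 := by
    rw [mul_div_assoc', div_lt_div_iff₀ (by positivity) (by positivity)]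
    nlinarith [sq_nonneg (L : ℝ)]
  linarith

theorem Appr.add {x y : MatUlt U} (hx : Appr U x) (hy : Appr U y) : Appr U (x + y) := by
  intro ε hε
  obtain ⟨L, b, hb, hb'⟩ := hy (ε / 2) (by positivity)
  obtain ⟨K, a, ha, ha'⟩ := hx (ε / 2) (by positivity)
  refine ⟨K + L, a + b, Cx_add U ha hb, ?_⟩
  have h : x + y - (a + b) = (x - a) + (y - b) := by abel
  rw [h]
  exact (nrmU_add_le U _ _).trans_lt (by linarith)

theorem Appr.star {x : MatUlt U} (hx : Appr U x) : Appr U (star x) := by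
  intro ε hε
  obtain ⟨K, a, ha, ha'⟩ := hx ε hε
  refine ⟨K, Star.star a, Cx_star U ha, ?_⟩
  rw [← star_sub, nrmU_star]
  exact ha'

/-- the approximable elements form a von Neumann subalgebra -/
noncomputable def apprAlg : StarSubalgebra ℂ (MatUlt U) where
  carrier := {x | Appr U x}
  mul_mem' := fun hx hy => Appr.mul U hx hy
  add_mem' := fun hx hy => Appr.add U hx hy
  algebraMap_mem' := by
    intro c ε hε
    obtain ⟨N, hN⟩ := exists_nat_ge ‖c‖
    refine ⟨N + 1, algebraMap ℂ _ c, ⟨Unit, inferInstance, fun _ => c, fun _ _ => 1, ?_, ?_, ?_⟩,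
      ?_⟩
    · simp
    · intro _
      push_cast; linarith
    · simp [permCls_one, Algebra.algebraMap_eq_smul_one]
    · rw [sub_self, nrmU_zero]; exact hε
  star_mem' := fun hx => Appr.star U hx

theorem apprAlg_isVN : IsVN U (apprAlg U) := by
  intro x hx ε hε
  obtain ⟨y, hy, hxy⟩ := hx (ε / 2) (by positivity)
  obtain ⟨K, a, ha, ha'⟩ := hy (ε / 2) (by positivity)
  refine ⟨K, a, ha, ?_⟩
  have h : x - a = (x - y) + (y - a) := by abel
  rw [h]
  exact (nrmU_add_le U _ _).trans_lt (by linarith)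

theorem appr_of_mem {x : MatUlt U} (hx : x ∈ WStar U) : Appr U x := by
  have h : WStar U ≤ apprAlg U := by
    refine sInf_le ⟨apprAlg_isVN U, fun σ => ?_⟩
    intro ε hε
    refine ⟨1, permCls U σ, ⟨Unit, inferInstance, fun _ => 1, fun _ => σ, ?_, ?_, ?_⟩, ?_⟩
    · simp
    · intro _; simp
    · simp
    · rw [sub_self, nrmU_zero]; exact hε
  exact h hx

/-- `x` is approximable at the uniform rate `f` -/
structure Good (f : ℕ → ℕ) (x : MatUlt U) : Prop where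
  left : ∀ y, nrmU U (x * y) ≤ f 0 * nrmU U y
  left' : ∀ y, nrmU U (star x * y) ≤ f 0 * nrmU U y
  appr : ∀ m : ℕ, ∃ a ∈ Cx U (f (m + 1)), nrmU U (x - a) < 1 / ((m : ℝ) + 1)

theorem exists_good {x : MatUlt U} (hx : x ∈ WStar U) : ∃ f : ℕ → ℕ, Good U f x := by
  obtain ⟨C, h1, h2⟩ := exists_mul_bound U x
  have h3 := appr_of_mem U hx
  choose K a ha ha' using fun m : ℕ => h3 (1 / ((m : ℝ) + 1)) (by positivity)
  refine ⟨fun m => Nat.casesOn m C K, h1, h2, fun m => ⟨a m, ha m, ha' m⟩⟩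

theorem Good.mono {f g : ℕ → ℕ} {x : MatUlt U} (h : Good U f x) (hfg : ∀ m, f m ≤ g m) :
    Good U g x := by
  have h0 : (f 0 : ℝ) ≤ g 0 := by exact_mod_cast hfg 0
  refine ⟨fun y => (h.left y).trans (mul_le_mul_of_nonneg_right h0 (nrmU_nonneg U y)),
    fun y => (h.left' y).trans (mul_le_mul_of_nonneg_right h0 (nrmU_nonneg U y)), fun m => ?_⟩
  obtain ⟨a, ha, ha'⟩ := h.appr m
  exact ⟨a, Cx_mono U (hfg _) ha, ha'⟩

theorem Good.star {f : ℕ → ℕ} {x : MatUlt U} (h : Good U f x) : Good U f (star x) := by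
  refine ⟨h.left', fun y => ?_, fun m => ?_⟩
  · rw [star_star]; exact h.left y
  · obtain ⟨a, ha, ha'⟩ := h.appr m
    refine ⟨Star.star a, Cx_star U ha, ?_⟩
    rw [← star_sub, nrmU_star]; exact ha'

theorem Good.mul (f g : ℕ → ℕ) : ∃ h : ℕ → ℕ, ∀ x y : MatUlt U, Good U f x → Good U g y →
    Good U h (x * y) := by
  -- levels
  let m1 : ℕ → ℕ := fun m => 2 * (m + 1) * (f 0 + 1)
  let m2 : ℕ → ℕ := fun m => 2 * (m + 1) * ((g (m1 m + 1)) ^ 2 + 1)
  refine ⟨fun m => Nat.casesOn m (f 0 * g 0) (fun m => f (m2 m + 1) * g (m1 m + 1)), ?_⟩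
  intro x y hx hy
  refine ⟨fun z => ?_, fun z => ?_, fun m => ?_⟩
  · rw [mul_assoc]
    show nrmU U (x * (y * z)) ≤ ((f 0 * g 0 : ℕ) : ℝ) * nrmU U z
    push_cast
    refine (hx.left _).trans ?_
    rw [mul_assoc]
    exact mul_le_mul_of_nonneg_left (hy.left z) (Nat.cast_nonneg _)
  · rw [star_mul, mul_assoc]
    show nrmU U (Star.star y * (Star.star x * z)) ≤ ((f 0 * g 0 : ℕ) : ℝ) * nrmU U z
    push_cast
    refine (hy.left' _).trans ?_
    rw [mul_comm (f 0 : ℝ), mul_assoc]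
    exact mul_le_mul_of_nonneg_left (hx.left' z) (Nat.cast_nonneg _)
  · obtain ⟨b, hb, hb'⟩ := hy.appr (m1 m)
    obtain ⟨a, ha, ha'⟩ := hx.appr (m2 m)
    refine ⟨a * b, Cx_mul U ha hb, ?_⟩
    refine (nrmU_mul_sub_le U hx.left hb).trans_lt ?_
    have h1 : (f 0 : ℝ) * nrmU U (y - b) ≤ (f 0 : ℝ) * (1 / ((m1 m : ℝ) + 1)) :=
      mul_le_mul_of_nonneg_left hb'.le (Nat.cast_nonneg _)
    have h2 : ((g (m1 m + 1) : ℕ) : ℝ) ^ 2 * nrmU U (x - a) ≤
        ((g (m1 m + 1) : ℕ) : ℝ) ^ 2 * (1 / ((m2 m : ℝ) + 1)) :=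
      mul_le_mul_of_nonneg_left ha'.le (by positivity)
    have e1 : ((m1 m : ℕ) : ℝ) = 2 * (m + 1) * (f 0 + 1) := by simp only [m1]; push_cast; ring
    have e2 : ((m2 m : ℕ) : ℝ) = 2 * (m + 1) * (((g (m1 m + 1) : ℕ) : ℝ) ^ 2 + 1) := by
      simp only [m2]; push_cast; ring
    have hm : (0 : ℝ) ≤ m := Nat.cast_nonneg _
    have hf : (0 : ℝ) ≤ f 0 := Nat.cast_nonneg _
    have h3 : (f 0 : ℝ) * (1 / ((m1 m : ℝ) + 1)) < 1 / (2 * ((m : ℝ) + 1)) := by
      rw [mul_one_div, div_lt_div_iff₀ (by rw [e1]; positivity) (by positivity), e1]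
      nlinarith
    have h4 : ((g (m1 m + 1) : ℕ) : ℝ) ^ 2 * (1 / ((m2 m : ℝ) + 1)) < 1 / (2 * ((m : ℝ) + 1)) := by
      rw [mul_one_div, div_lt_div_iff₀ (by rw [e2]; positivity) (by positivity), e2]
      nlinarith [sq_nonneg ((g (m1 m + 1) : ℕ) : ℝ)]
    have h5 : 1 / (2 * ((m : ℝ) + 1)) + 1 / (2 * ((m : ℝ) + 1)) = 1 / ((m : ℝ) + 1) := by
      field_simp
      ring
    linarith

end Pool.Agent.Helper687.MU
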