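import Mathlib

/-!
# The tracial matrix ultraproduct and the von Neumann algebra of the symmetric-group ultraproduct
-/

set_option autoImplicit false

namespace Pool.Agent.Helper687.MU

open Filter Topology Matrix
open scoped Matrix.Norms.L2Operator

/-- The algebra `M_n(ℂ)`. Its norm, in this file, is the operator norm of `ℂ^n`. -/
abbrev Mat (n : ℕ) : Type := Matrix (Fin n) (Fin n) ℂ

/-- The normalized `2`-norm `‖x‖₂ = tr_n(x* x)^{1/2}` with `tr_n = (1/n) Tr`. -/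
noncomputable def nrm2 {n : ℕ} (x : Mat n) : ℝ := Real.sqrt ((Matrix.trace (xᴴ * x)).re / n)

/-- The algebra of norm-bounded sequences `(x_n)`, `x_n ∈ M_n(ℂ)`. -/
def BddSeq : StarSubalgebra ℂ ((n : ℕ) → Mat n) where
  carrier := {x | ∃ C : ℝ, ∀ n, ‖x n‖ ≤ C}
  mul_mem' := by
    rintro x y ⟨C, hC⟩ ⟨D, hD⟩
    refine ⟨C * D, fun n => ?_⟩
    calc ‖(x * y) n‖ ≤ ‖x n‖ * ‖y n‖ := norm_mul_le _ _
      _ ≤ C * D := mul_le_mul (hC n) (hD n) (norm_nonneg _) ((norm_nonneg _).trans (hC n))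
  add_mem' := by
    rintro x y ⟨C, hC⟩ ⟨D, hD⟩
    exact ⟨C + D, fun n => (norm_add_le _ _).trans (add_le_add (hC n) (hD n))⟩
  algebraMap_mem' := by
    intro c
    refine ⟨‖c‖, fun n => ?_⟩
    have h1 : ((algebraMap ℂ ((n : ℕ) → Mat n)) c) n = c • (1 : Mat n) := by
      rw [Pi.algebraMap_apply, Algebra.algebraMap_eq_smul_one]
    rw [h1, norm_smul]
    have h2 : ‖(1 : Mat n)‖ ≤ 1 := by
      have := Matrix.l2_opNorm_diagonal (n := Fin n) (𝕜 := ℂ) (fun _ => 1)
      rw [Matrix.diagonal_one] at this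
      rw [this]
      exact (pi_norm_le_iff_of_nonneg zero_le_one).2 (fun i => by simp)
    calc ‖c‖ * ‖(1 : Mat n)‖ ≤ ‖c‖ * 1 := mul_le_mul_of_nonneg_left h2 (norm_nonneg _)
      _ = ‖c‖ := mul_one _
  star_mem' := by
    rintro x ⟨C, hC⟩
    refine ⟨C, fun n => ?_⟩
    show ‖star (x n)‖ ≤ C
    rw [norm_star]; exact hC n

/-! ### The normalized 2-norm -/

/-- auxiliary: a matrix as a vector of the euclidean space -/
noncomputable def toE {n : ℕ} (x : Mat n) : EuclideanSpace ℂ (Fin n × Fin n) :=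
  WithLp.toLp 2 (fun p => x p.1 p.2)

theorem trace_re {n : ℕ} (x : Mat n) : (Matrix.trace (xᴴ * x)).re = ∑ i, ∑ j, ‖x i j‖ ^ 2 := by
  simp only [Matrix.trace, Matrix.diag_apply, Matrix.mul_apply, Matrix.conjTranspose_apply,
    Complex.re_sum]
  rw [Finset.sum_comm]
  refine Finset.sum_congr rfl fun i _ => Finset.sum_congr rfl fun j _ => ?_
  rw [← Complex.normSq_eq_norm_sq]
  simp [Complex.normSq_apply]

theorem nrm2_sq {n : ℕ} (x : Mat n) : nrm2 x ^ 2 = (∑ i, ∑ j, ‖x i j‖ ^ 2) / n := by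
  rw [nrm2, Real.sq_sqrt, trace_re]
  rw [trace_re]; positivity

theorem nrm2_eq {n : ℕ} (x : Mat n) : nrm2 x = ‖toE x‖ / Real.sqrt n := by
  have h1 : ‖toE x‖ ^ 2 = ∑ i, ∑ j, ‖x i j‖ ^ 2 := by
    rw [EuclideanSpace.norm_sq_eq, Fintype.sum_prod_type]
    rfl
  rw [nrm2, trace_re, ← h1, Real.sqrt_div (by positivity), Real.sqrt_sq (norm_nonneg _)]

theorem nrm2_nonneg {n : ℕ} (x : Mat n) : 0 ≤ nrm2 x := Real.sqrt_nonneg _

theorem nrm2_add_le {n : ℕ} (x y : Mat n) : nrm2 (x + y) ≤ nrm2 x + nrm2 y := by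
  rw [nrm2_eq, nrm2_eq, nrm2_eq, ← add_div]
  have : toE (x + y) = toE x + toE y := rfl
  rw [this]
  gcongr
  exact norm_add_le _ _

theorem nrm2_smul {n : ℕ} (c : ℂ) (x : Mat n) : nrm2 (c • x) = ‖c‖ * nrm2 x := by
  rw [nrm2_eq, nrm2_eq, mul_div_assoc']
  have : toE (c • x) = c • toE x := rfl
  rw [this, norm_smul]

theorem nrm2_zero {n : ℕ} : nrm2 (0 : Mat n) = 0 := by
  have := nrm2_smul (0 : ℂ) (0 : Mat n)
  simpa using this

theorem nrm2_neg {n : ℕ} (x : Mat n) : nrm2 (-x) = nrm2 x := by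
  have := nrm2_smul (-1 : ℂ) x
  simpa using this

theorem nrm2_sub_le {n : ℕ} (x y : Mat n) : nrm2 (x - y) ≤ nrm2 x + nrm2 y := by
  rw [sub_eq_add_neg]
  exact (nrm2_add_le _ _).trans (by rw [nrm2_neg])

theorem nrm2_sub_comm {n : ℕ} (x y : Mat n) : nrm2 (x - y) = nrm2 (y - x) := by
  rw [← nrm2_neg, neg_sub]

theorem nrm2_star {n : ℕ} (x : Mat n) : nrm2 (star x) = nrm2 x := by
  have h : nrm2 (star x) ^ 2 = nrm2 x ^ 2 := by
    rw [nrm2_sq, nrm2_sq, Finset.sum_comm]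
    congr 1
    refine Finset.sum_congr rfl fun i _ => Finset.sum_congr rfl fun j _ => ?_
    rw [Matrix.star_apply, norm_star]
  have := (sq_eq_sq₀ (nrm2_nonneg (star x)) (nrm2_nonneg x)).1 h
  exact this

theorem nrm2_mul_le {n : ℕ} (x y : Mat n) : nrm2 (x * y) ≤ ‖x‖ * nrm2 y := by
  refine abs_le_of_sq_le_sq' ?_ (mul_nonneg (norm_nonneg _) (nrm2_nonneg _)) |>.2
  rw [mul_pow, nrm2_sq, nrm2_sq, mul_div_assoc']
  apply div_le_div_of_nonneg_right _ (Nat.cast_nonneg n)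
  rw [Finset.sum_comm, Finset.sum_comm (f := fun i j => ‖y i j‖ ^ 2), Finset.mul_sum]
  refine Finset.sum_le_sum fun j _ => ?_
  have h1 := Matrix.l2_opNorm_mulVec x (WithLp.toLp 2 (fun i => y i j))
  have h2 : ‖WithLp.toLp 2 (fun i => y i j)‖ ^ 2 = ∑ i, ‖y i j‖ ^ 2 := by
    rw [EuclideanSpace.norm_sq_eq]
  have h3 : ‖(EuclideanSpace.equiv (Fin n) ℂ).symm (x *ᵥ (fun i => y i j))‖ ^ 2 =
      ∑ i, ‖(x * y) i j‖ ^ 2 := by
    rw [EuclideanSpace.norm_sq_eq]
    rfl
  rw [← h3, ← h2, ← mul_pow]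
  exact pow_le_pow_left₀ (norm_nonneg _) h1 2

theorem nrm2_mul_le' {n : ℕ} (x y : Mat n) : nrm2 (x * y) ≤ nrm2 x * ‖y‖ := by
  have := nrm2_mul_le (star y) (star x)
  rw [← star_mul, nrm2_star, nrm2_star, norm_star, mul_comm] at this
  exact this

theorem norm_one_le (n : ℕ) : ‖(1 : Mat n)‖ ≤ 1 := by
  have := Matrix.l2_opNorm_diagonal (n := Fin n) (𝕜 := ℂ) (fun _ => 1)
  rw [Matrix.diagonal_one] at this
  rw [this]
  exact (pi_norm_le_iff_of_nonneg zero_le_one).2 (fun i => by simp)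

theorem nrm2_one_sq {n : ℕ} (hn : 1 ≤ n) : nrm2 (1 : Mat n) ^ 2 = 1 := by
  rw [nrm2_sq]
  have h : (∑ i : Fin n, ∑ j : Fin n, ‖(1 : Mat n) i j‖ ^ 2) = n := by
    have h1 : ∀ i : Fin n, ∑ j : Fin n, ‖(1 : Mat n) i j‖ ^ 2 = 1 := by
      intro i
      rw [Finset.sum_eq_single i]
      · simp
      · intro j _ hj
        simp [Matrix.one_apply_ne' hj]
      · simp
    simp [h1]
  rw [h]
  have : (n : ℝ) ≠ 0 := by positivity
  exact div_self this

theorem nrm2_one {n : ℕ} (hn : 1 ≤ n) : nrm2 (1 : Mat n) = 1 := by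
  exact (pow_eq_one_iff_of_nonneg (nrm2_nonneg _) two_ne_zero).1 (nrm2_one_sq hn)

theorem nrm2_le {n : ℕ} (x : Mat n) : nrm2 x ≤ ‖x‖ := by
  rcases Nat.eq_zero_or_pos n with h | h
  · subst h
    have : nrm2 x = 0 := by rw [nrm2]; simp
    rw [this]; exact norm_nonneg _
  · have := nrm2_mul_le x 1
    rwa [mul_one, nrm2_one h, mul_one] at this

/-! ### The ultraproduct -/

variable (U : Ultrafilter ℕ)

/-- The ideal of the bounded sequences with `lim_{n → U} ‖x_n‖₂ = 0`. -/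
def nullIdeal : Ideal BddSeq where
  carrier := {x | Tendsto (fun n => nrm2 ((x : (n : ℕ) → Mat n) n)) U (𝓝 0)}
  add_mem' := by
    intro x y hx hy
    refine squeeze_zero (fun n => nrm2_nonneg _) (fun n => nrm2_add_le _ _) ?_
    simpa using Tendsto.add hx hy
  zero_mem' := by
    have : (fun n : ℕ => nrm2 ((0 : Mat n))) = fun _ => (0 : ℝ) := by
      funext n; exact nrm2_zero
    show Tendsto (fun n : ℕ => nrm2 (0 : Mat n)) U (𝓝 0)
    rw [this]
    exact tendsto_const_nhds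
  smul_mem' := by
    intro c x hx
    obtain ⟨C, hC⟩ := c.2
    refine squeeze_zero (fun n => nrm2_nonneg _)
      (fun n => (nrm2_mul_le (c.1 n) (x.1 n)).trans
        (mul_le_mul_of_nonneg_right (hC n) (nrm2_nonneg _))) ?_
    simpa using Tendsto.const_mul C hx

instance : (nullIdeal U).IsTwoSided where
  mul_mem_of_left := by
    intro x y hx
    obtain ⟨C, hC⟩ := y.2
    refine squeeze_zero (fun n => nrm2_nonneg _)
      (fun n => (nrm2_mul_le' (x.1 n) (y.1 n)).trans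
        (mul_le_mul_of_nonneg_left (hC n) (nrm2_nonneg _))) ?_
    simpa using Tendsto.mul_const C hx

/-- The tracial matrix ultraproduct `∏_{n → U} M_n(ℂ)`. -/
def MatUlt : Type := BddSeq ⧸ nullIdeal U

noncomputable instance : Ring (MatUlt U) := inferInstanceAs (Ring (BddSeq ⧸ nullIdeal U))

noncomputable instance : Algebra ℂ (MatUlt U) :=
  inferInstanceAs (Algebra ℂ (BddSeq ⧸ nullIdeal U))

/-- The class of a bounded sequence. -/
noncomputable def cls : BddSeq →ₐ[ℂ] MatUlt U := Ideal.Quotient.mkₐ ℂ (nullIdeal U)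

theorem cls_surjective : Function.Surjective (cls U) := Ideal.Quotient.mkₐ_surjective ℂ _

theorem cls_eq_iff {x y : BddSeq} : cls U x = cls U y ↔
    Tendsto (fun n => nrm2 (x.1 n - y.1 n)) U (𝓝 0) := by
  have : cls U x = cls U y ↔ x - y ∈ nullIdeal U := Ideal.Quotient.mk_eq_mk_iff_sub_mem x y
  rw [this]
  rfl

theorem cls_eq_zero_iff {x : BddSeq} : cls U x = 0 ↔
    Tendsto (fun n => nrm2 (x.1 n)) U (𝓝 0) := by
  have := cls_eq_iff U (x := x) (y := 0)
  rw [map_zero] at this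
  rw [this]
  simp

noncomputable instance : Star (MatUlt U) where
  star := Quotient.lift (fun x : BddSeq => cls U (star x)) (by
    intro x y hxy
    have h1 : cls U x = cls U y := Quotient.sound hxy
    rw [cls_eq_iff] at h1 ⊢
    refine h1.congr (fun n => ?_)
    rw [← nrm2_star, star_sub]
    rfl)

theorem star_cls (x : BddSeq) : star (cls U x) = cls U (star x) := rfl

noncomputable instance : StarRing (MatUlt U) where
  star_involutive := by
    intro x
    obtain ⟨x, rfl⟩ := cls_surjective U x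
    rw [star_cls, star_cls, star_star]
  star_mul := by
    intro x y
    obtain ⟨x, rfl⟩ := cls_surjective U x
    obtain ⟨y, rfl⟩ := cls_surjective U y
    rw [← map_mul, star_cls, star_cls, star_cls, star_mul, map_mul]
  star_add := by
    intro x y
    obtain ⟨x, rfl⟩ := cls_surjective U x
    obtain ⟨y, rfl⟩ := cls_surjective U y
    rw [← map_add, star_cls, star_cls, star_cls, star_add, map_add]

instance : StarModule ℂ (MatUlt U) where
  star_smul := by
    intro c x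
    obtain ⟨x, rfl⟩ := cls_surjective U x
    rw [← map_smul, star_cls, star_cls, star_smul, map_smul]

/-- The `2`-norm of the ultraproduct: the limit along `U` of `‖x_n‖₂` for a representing
sequence `(x_n)`. -/
noncomputable def nrmU (x : MatUlt U) : ℝ :=
  limUnder (U : Filter ℕ) (fun n => nrm2 ((Function.surjInv (cls_surjective U) x).1 n))

theorem exists_lim (x : BddSeq) : ∃ L : ℝ, Tendsto (fun n => nrm2 (x.1 n)) U (𝓝 L) := by
  obtain ⟨C, hC⟩ := x.2
  have h1 : ∀ n, nrm2 (x.1 n) ∈ Set.Icc 0 C := fun n => ⟨nrm2_nonneg _, (nrm2_le _).trans (hC n)⟩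
  have h2 : ((U.map (fun n => nrm2 (x.1 n)) : Ultrafilter ℝ) : Filter ℝ) ≤ 𝓟 (Set.Icc 0 C) := by
    rw [Ultrafilter.coe_map, le_principal_iff, Filter.mem_map]
    exact Filter.univ_mem' h1
  obtain ⟨L, _, hL⟩ := isCompact_Icc.ultrafilter_le_nhds _ h2
  exact ⟨L, hL⟩

theorem tendsto_nrmU (x : BddSeq) :
    Tendsto (fun n => nrm2 (x.1 n)) U (𝓝 (nrmU U (cls U x))) := by
  set y := Function.surjInv (cls_surjective U) (cls U x) with hy
  have h1 : cls U y = cls U x := Function.surjInv_eq (cls_surjective U) (cls U x)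
  obtain ⟨L, hL⟩ := exists_lim U y
  have h2 : nrmU U (cls U x) = L := hL.limUnder_eq
  rw [h2]
  rw [cls_eq_iff] at h1
  have h3 : Tendsto (fun n => nrm2 (y.1 n) + nrm2 (y.1 n - x.1 n)) U (𝓝 (L + 0)) := hL.add h1
  have h4 : Tendsto (fun n => nrm2 (y.1 n) - nrm2 (y.1 n - x.1 n)) U (𝓝 (L - 0)) := hL.sub h1
  rw [add_zero] at h3
  rw [sub_zero] at h4
  refine tendsto_of_tendsto_of_tendsto_of_le_of_le h4 h3 (fun n => ?_) (fun n => ?_)
  · have := nrm2_add_le (x.1 n) (y.1 n - x.1 n)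
    rw [add_sub_cancel] at this
    show nrm2 (y.1 n) - nrm2 (y.1 n - x.1 n) ≤ nrm2 (x.1 n)
    linarith
  · have := nrm2_sub_le (y.1 n) (y.1 n - x.1 n)
    rw [sub_sub_cancel] at this
    exact this

/-- The class of a sequence of permutation matrices. -/
noncomputable def permCls (σ : (n : ℕ) → Equiv.Perm (Fin n)) : MatUlt U :=
  cls U ⟨fun n => (σ n).permMatrix ℂ, by
    refine ⟨1, fun n => ?_⟩
    have h : star ((σ n).permMatrix ℂ) * (σ n).permMatrix ℂ = 1 := by
      rw [Matrix.star_eq_conjTranspose, Matrix.conjTranspose_permMatrix, ← Matrix.permMatrix_mul]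
      simp
    have h2 : ‖(σ n).permMatrix ℂ‖ * ‖(σ n).permMatrix ℂ‖ ≤ 1 := by
      rw [← CStarRing.norm_star_mul_self, h]
      exact norm_one_le n
    nlinarith [norm_nonneg ((σ n).permMatrix ℂ)]⟩

/-- A unital `*`-subalgebra of the ultraproduct is a von Neumann subalgebra if it is closed in the
`2`-norm. -/
def IsVN (N : StarSubalgebra ℂ (MatUlt U)) : Prop :=
  ∀ x : MatUlt U, (∀ ε : ℝ, 0 < ε → ∃ y ∈ N, nrmU U (x - y) < ε) → x ∈ N

/-- The von Neumann algebra `W*(S^U)` generated by the classes of the sequences of permutation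
matrices. -/
noncomputable def WStar : StarSubalgebra ℂ (MatUlt U) :=
  sInf {N | IsVN U N ∧ ∀ σ : (n : ℕ) → Equiv.Perm (Fin n), permCls U σ ∈ N}

end Pool.Agent.Helper687.MU
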