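import Mathlib

/-!
# Fourth moments of sums with random signs
-/

set_option autoImplicit false

namespace Pool.Agent.Helper687.MU

open Finset

/-- the sign of a bit -/
noncomputable def sg (b : Bool) : ℂ := if b then 1 else -1

theorem sg_not (b : Bool) : sg (!b) = -sg b := by cases b <;> simp [sg]

theorem sg_norm (b : Bool) : ‖sg b‖ = 1 := by cases b <;> simp [sg]

theorem sg_mul_self (b : Bool) : sg b * sg b = 1 := by cases b <;> simp [sg]

theorem star_sg (b : Bool) : star (sg b) = sg b := by cases b <;> simp [sg]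

section

variable {ι : Type*} [Fintype ι] [DecidableEq ι]

/-- flipping one sign -/
def flipEquiv (i : ι) : (ι → Bool) ≃ (ι → Bool) where
  toFun ε := Function.update ε i (!ε i)
  invFun ε := Function.update ε i (!ε i)
  left_inv ε := by
    funext j
    by_cases h : j = i
    · subst h; simp
    · simp [h]
  right_inv ε := by
    funext j
    by_cases h : j = i
    · subst h; simp
    · simp [h]

theorem sum_flip (i : ι) (g : (ι → Bool) → ℝ) :
    2 * ∑ ε, g ε = ∑ ε, (g ε + g (flipEquiv i ε)) := by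
  rw [Finset.sum_add_distrib, Equiv.sum_comp (flipEquiv i) g, two_mul]

variable {H : Type*} [NormedAddCommGroup H] [InnerProductSpace ℂ H]

theorem four_step (S b : H) :
    ‖S + b‖ ^ 4 + ‖S - b‖ ^ 4 ≤ 2 * (‖S‖ ^ 4 + 6 * ‖S‖ ^ 2 * ‖b‖ ^ 2 + ‖b‖ ^ 4) := by
  have h1 := norm_add_sq (𝕜 := ℂ) S b
  have h2 := norm_sub_sq (𝕜 := ℂ) S b
  set r := RCLike.re (inner ℂ S b) with hr
  have h3 : |r| ≤ ‖S‖ * ‖b‖ := (RCLike.abs_re_le_norm _).trans (norm_inner_le_norm S b)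
  have h4 : r ^ 2 ≤ ‖S‖ ^ 2 * ‖b‖ ^ 2 := by
    rw [← mul_pow, ← sq_abs]
    exact pow_le_pow_left₀ (abs_nonneg _) h3 2
  have e1 : ‖S + b‖ ^ 4 = (‖S‖ ^ 2 + 2 * r + ‖b‖ ^ 2) ^ 2 := by rw [← h1]; ring
  have e2 : ‖S - b‖ ^ 4 = (‖S‖ ^ 2 - 2 * r + ‖b‖ ^ 2) ^ 2 := by rw [← h2]; ring
  rw [e1, e2]
  nlinarith

theorem two_step (S b : H) : ‖S + b‖ ^ 2 + ‖S - b‖ ^ 2 = 2 * (‖S‖ ^ 2 + ‖b‖ ^ 2) := by
  have h1 := norm_add_sq (𝕜 := ℂ) S b
  have h2 := norm_sub_sq (𝕜 := ℂ) S b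
  rw [h1, h2]; ring

/-- signed partial sum -/
noncomputable def SS (b : ι → H) (s : Finset ι) (ε : ι → Bool) : H := ∑ i ∈ s, sg (ε i) • b i

theorem SS_insert (b : ι → H) {s : Finset ι} {i : ι} (hi : i ∉ s) (ε : ι → Bool) :
    SS b (insert i s) ε = SS b s ε + sg (ε i) • b i := by
  rw [SS, Finset.sum_insert hi, add_comm]
  rfl

theorem SS_insert_flip (b : ι → H) {s : Finset ι} {i : ι} (hi : i ∉ s) (ε : ι → Bool) :
    SS b (insert i s) (flipEquiv i ε) = SS b s ε - sg (ε i) • b i := by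
  rw [SS_insert b hi]
  have h1 : SS b s (flipEquiv i ε) = SS b s ε := by
    refine Finset.sum_congr rfl fun j hj => ?_
    have : j ≠ i := fun h => hi (h ▸ hj)
    simp [flipEquiv, this]
  have h2 : flipEquiv i ε i = !ε i := by simp [flipEquiv]
  rw [h1, h2, sg_not, neg_smul, sub_eq_add_neg]

theorem khin_two (b : ι → H) (s : Finset ι) :
    ∑ ε : ι → Bool, ‖SS b s ε‖ ^ 2 = (Fintype.card (ι → Bool) : ℝ) * ∑ i ∈ s, ‖b i‖ ^ 2 := by
  induction s using Finset.induction_on with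
  | empty => simp [SS]
  | insert i s hi ih =>
    have h := sum_flip i (fun ε => ‖SS b (insert i s) ε‖ ^ 2)
    have h2 : ∀ ε : ι → Bool, ‖SS b (insert i s) ε‖ ^ 2 + ‖SS b (insert i s) (flipEquiv i ε)‖ ^ 2 =
        2 * (‖SS b s ε‖ ^ 2 + ‖b i‖ ^ 2) := by
      intro ε
      rw [SS_insert b hi, SS_insert_flip b hi, two_step, norm_smul, sg_norm, one_mul]
    simp only [h2] at h
    rw [← Finset.mul_sum, Finset.sum_add_distrib, ih] at h
    rw [Finset.sum_insert hi]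
    simp only [Finset.sum_const, Finset.card_univ, nsmul_eq_mul] at h
    linarith

theorem khin_four (b : ι → H) (s : Finset ι) :
    ∑ ε : ι → Bool, ‖SS b s ε‖ ^ 4 ≤
      3 * (Fintype.card (ι → Bool) : ℝ) * (∑ i ∈ s, ‖b i‖ ^ 2) ^ 2 := by
  induction s using Finset.induction_on with
  | empty => simp [SS]
  | insert i s hi ih =>
    have h := sum_flip i (fun ε => ‖SS b (insert i s) ε‖ ^ 4)
    have h2 : ∀ ε : ι → Bool, ‖SS b (insert i s) ε‖ ^ 4 + ‖SS b (insert i s) (flipEquiv i ε)‖ ^ 4 ≤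
        2 * (‖SS b s ε‖ ^ 4 + 6 * ‖SS b s ε‖ ^ 2 * ‖b i‖ ^ 2 + ‖b i‖ ^ 4) := by
      intro ε
      rw [SS_insert b hi, SS_insert_flip b hi]
      refine (four_step _ _).trans (le_of_eq ?_)
      rw [norm_smul, sg_norm, one_mul]
    have h3 := Finset.sum_le_sum (fun ε (_ : ε ∈ (Finset.univ : Finset (ι → Bool))) => h2 ε)
    rw [← h, ← Finset.mul_sum, Finset.sum_add_distrib, Finset.sum_add_distrib] at h3
    have h4 : ∑ ε : ι → Bool, 6 * ‖SS b s ε‖ ^ 2 * ‖b i‖ ^ 2 =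
        6 * ((Fintype.card (ι → Bool) : ℝ) * ∑ i ∈ s, ‖b i‖ ^ 2) * ‖b i‖ ^ 2 := by
      rw [← khin_two b s, Finset.mul_sum, Finset.sum_mul]
    rw [h4] at h3
    simp only [Finset.sum_const, Finset.card_univ, nsmul_eq_mul] at h3
    rw [Finset.sum_insert hi]
    set N := (Fintype.card (ι → Bool) : ℝ)
    set A := ∑ i ∈ s, ‖b i‖ ^ 2
    have hN : 0 ≤ N := Nat.cast_nonneg _
    have h5 : 0 ≤ N * (‖b i‖ ^ 2) ^ 2 := by positivity
    have h6 : (‖b i‖ ^ 2) ^ 2 = ‖b i‖ ^ 4 := by ring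
    rw [h6] at h5
    nlinarith [h3, ih, h5]

end

variable {ι κ : Type*} [Fintype ι] [DecidableEq ι] [Fintype κ] [DecidableEq κ]

/-- fourth moment of a bilinear form in independent signs -/
theorem khin_bil (a : ι → κ → ℂ) :
    ∑ ε : ι → Bool, ∑ δ : κ → Bool, ‖∑ i, ∑ k, sg (ε i) * sg (δ k) * a i k‖ ^ 4 ≤
      9 * (Fintype.card (ι → Bool) : ℝ) * (Fintype.card (κ → Bool) : ℝ) *
        (∑ i, ∑ k, ‖a i k‖ ^ 2) ^ 2 := by
  rw [Finset.sum_comm]
  let v : κ → EuclideanSpace ℂ ι := fun k => WithLp.toLp 2 (fun i => a i k)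
  have h1 : ∀ δ : κ → Bool, ∑ ε : ι → Bool, ‖∑ i, ∑ k, sg (ε i) * sg (δ k) * a i k‖ ^ 4 ≤
      3 * (Fintype.card (ι → Bool) : ℝ) * ‖SS v Finset.univ δ‖ ^ 4 := by
    intro δ
    have h2 := khin_four (fun i => ∑ k, sg (δ k) * a i k) (Finset.univ : Finset ι)
    have e1 : ∀ ε : ι → Bool, ∑ i, ∑ k, sg (ε i) * sg (δ k) * a i k =
        SS (fun i => ∑ k, sg (δ k) * a i k) Finset.univ ε := by
      intro ε
      refine Finset.sum_congr rfl fun i _ => ?_
      rw [smul_eq_mul, Finset.mul_sum]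
      refine Finset.sum_congr rfl fun k _ => by ring
    simp only [e1]
    refine h2.trans (le_of_eq ?_)
    congr 1
    have e2 : ∑ i, ‖∑ k, sg (δ k) * a i k‖ ^ 2 = ‖SS v Finset.univ δ‖ ^ 2 := by
      rw [EuclideanSpace.norm_sq_eq]
      refine Finset.sum_congr rfl fun i _ => ?_
      congr 2
      simp [SS, v]
    rw [e2]; ring
  refine (Finset.sum_le_sum fun δ _ => h1 δ).trans ?_
  rw [← Finset.mul_sum]
  have h3 := khin_four v (Finset.univ : Finset κ)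
  have e3 : ∑ k, ‖v k‖ ^ 2 = ∑ i, ∑ k, ‖a i k‖ ^ 2 := by
    rw [Finset.sum_comm]
    refine Finset.sum_congr rfl fun k _ => ?_
    rw [EuclideanSpace.norm_sq_eq]
  rw [e3] at h3
  calc 3 * (Fintype.card (ι → Bool) : ℝ) * ∑ δ : κ → Bool, ‖SS v Finset.univ δ‖ ^ 4
      ≤ 3 * (Fintype.card (ι → Bool) : ℝ) * (3 * (Fintype.card (κ → Bool) : ℝ) *
        (∑ i, ∑ k, ‖a i k‖ ^ 2) ^ 2) := mul_le_mul_of_nonneg_left h3 (by positivity)
    _ = _ := by ring

end Pool.Agent.Helper687.MU
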