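import Pool.Agent.Helper687_MU.Cplx
import Pool.Agent.Helper687_MU.Khin

/-!
# Images of large matrix algebras are not uniformly approximable by short combinations of
permutations
-/

set_option autoImplicit false

namespace Pool.Agent.Helper687.MU

open Filter Topology Matrix
open scoped Matrix.Norms.L2Operator

/-- real part of the normalized trace -/
noncomputable def trn {n : ℕ} (x : Mat n) : ℝ := (Matrix.trace x).re / n

theorem trn_add {n : ℕ} (x y : Mat n) : trn (x + y) = trn x + trn y := by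
  simp [trn, Matrix.trace_add, add_div]

theorem trn_sub {n : ℕ} (x y : Mat n) : trn (x - y) = trn x - trn y := by
  simp [trn, Matrix.trace_sub, sub_div]

theorem trn_sum {n : ℕ} {ι : Type*} (s : Finset ι) (f : ι → Mat n) :
    trn (∑ i ∈ s, f i) = ∑ i ∈ s, trn (f i) := by
  simp [trn, Matrix.trace_sum, Finset.sum_div]

theorem trn_mul_comm {n : ℕ} (x y : Mat n) : trn (x * y) = trn (y * x) := by
  rw [trn, trn, Matrix.trace_mul_comm]

theorem nrm2_sq' {n : ℕ} (x : Mat n) : nrm2 x ^ 2 = trn (xᴴ * x) := by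
  rw [nrm2_sq, trn, trace_re]

theorem trn_one {n : ℕ} (hn : 1 ≤ n) : trn (1 : Mat n) = 1 := by
  have : (n : ℝ) ≠ 0 := by positivity
  simp [trn, this]

theorem abs_trn_le {n : ℕ} (x : Mat n) : |trn x| ≤ nrm2 x := by
  rcases Nat.eq_zero_or_pos n with h | h
  · subst h
    simp [trn, nrm2_nonneg]
  · have hn : (0 : ℝ) < n := by exact_mod_cast h
    refine abs_le_of_sq_le_sq ?_ (nrm2_nonneg x)
    rw [nrm2_sq, trn, div_pow, sq (n : ℝ), ← div_div]
    apply div_le_div_of_nonneg_right _ hn.le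
    rw [div_le_iff₀ hn]
    have h1 : (Matrix.trace x).re ^ 2 ≤ (∑ i, ‖x i i‖) ^ 2 := by
      rw [← sq_abs]
      refine pow_le_pow_left₀ (abs_nonneg _) ?_ 2
      refine (Complex.abs_re_le_norm _).trans ?_
      exact norm_sum_le _ _
    have h2 : (∑ i, ‖x i i‖) ^ 2 ≤ n * ∑ i, ‖x i i‖ ^ 2 := by
      have := sq_sum_le_card_mul_sum_sq (s := (Finset.univ : Finset (Fin n))) (f := fun i => ‖x i i‖)
      simpa using this
    have h3 : ∑ i, ‖x i i‖ ^ 2 ≤ ∑ i, ∑ j, ‖x i j‖ ^ 2 := by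
      refine Finset.sum_le_sum fun i _ => ?_
      exact Finset.single_le_sum (f := fun j => ‖x i j‖ ^ 2) (fun j _ => sq_nonneg _)
        (Finset.mem_univ i)
    calc (Matrix.trace x).re ^ 2 ≤ (∑ i, ‖x i i‖) ^ 2 := h1
      _ ≤ n * ∑ i, ‖x i i‖ ^ 2 := h2
      _ ≤ n * ∑ i, ∑ j, ‖x i j‖ ^ 2 := mul_le_mul_of_nonneg_left h3 hn.le
      _ = (∑ i, ∑ j, ‖x i j‖ ^ 2) * n := mul_comm _ _

variable (U : Ultrafilter ℕ)

theorem trn_lim {x y : BddSeq} (h : cls U x = cls U y) :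
    Tendsto (fun n => trn (x.1 n) - trn (y.1 n)) U (𝓝 0) := by
  rw [cls_eq_iff] at h
  rw [tendsto_zero_iff_abs_tendsto_zero]
  refine squeeze_zero (fun n => abs_nonneg _) (fun n => ?_) h
  show |trn (x.1 n) - trn (y.1 n)| ≤ _
  rw [← trn_sub]
  exact abs_trn_le _

theorem trn_lim_const (hU : (U : Filter ℕ) ≤ cofinite) {x : BddSeq} (h : cls U x = 1) :
    Tendsto (fun n => trn (x.1 n)) U (𝓝 1) := by
  have h1 : cls U x = cls U 1 := by rw [h, map_one]
  have h2 := trn_lim U h1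
  have h3 : ∀ᶠ n in (U : Filter ℕ), trn (x.1 n) = (trn (x.1 n) - trn ((1 : BddSeq).1 n)) + 1 := by
    have h4 : ∀ᶠ n : ℕ in (U : Filter ℕ), 1 ≤ n := by
      rw [Nat.cofinite_eq_atTop] at hU
      exact hU (eventually_ge_atTop 1)
    filter_upwards [h4] with n hn
    have : trn ((1 : BddSeq).1 n) = 1 := trn_one hn
    rw [this]; ring
  rw [tendsto_congr' h3]
  simpa using h2.add_const 1

variable {L : Type} [Fintype L] [DecidableEq L]

/-- lifts of the first row of matrix units with uniformly bounded column sums -/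
theorem good_lifts (ρ : Matrix L L ℂ →⋆ₐ[ℂ] MatUlt U) (o : L) : ∃ B : L → BddSeq,
    (∀ i, cls U (B i) = ρ (Matrix.single o i 1)) ∧
      ∀ n x, ∑ i, ∑ z, ‖(B i).1 n z x‖ ^ 2 ≤ 2 := by
  choose B₀ hB₀ using fun i => cls_surjective U (ρ (Matrix.single o i 1))
  let S : (n : ℕ) → Fin n → ℝ := fun n x => ∑ i, ∑ z, ‖(B₀ i).1 n z x‖ ^ 2
  let g : (n : ℕ) → Fin n → ℂ := fun n x => if S n x ≤ 2 then 1 else 0
  have hg : ∀ n x, ‖g n x‖ ≤ 1 := by
    intro n x
    simp only [g]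
    split_ifs <;> simp
  let P : BddSeq := ⟨fun n => Matrix.diagonal (g n), 1, fun n => by
    rw [Matrix.l2_opNorm_diagonal]
    exact (pi_norm_le_iff_of_nonneg zero_le_one).2 (hg n)⟩
  let W : BddSeq := ∑ i, star (B₀ i) * B₀ i
  have hW : cls U W = 1 := by
    simp only [W, map_sum, map_mul, ← star_cls, hB₀, ← map_star]
    rw [← map_one ρ]
    have : (1 : Matrix L L ℂ) = ∑ i, star (Matrix.single o i (1 : ℂ)) * Matrix.single o i 1 := by
      ext a b
      simp only [Matrix.star_eq_conjTranspose, Matrix.conjTranspose_single, star_one,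
        Matrix.single_mul_single_same, mul_one, Matrix.sum_apply, Matrix.single_apply]
      by_cases h : a = b
      · subst h; simp
      · simp only [Matrix.one_apply_ne h]
        symm
        apply Finset.sum_eq_zero
        intro i _
        rw [if_neg]
        rintro ⟨h1, h2⟩
        exact h (h1.symm.trans h2)
    rw [this, map_sum]
    simp only [map_mul]
  have hWx : ∀ n x, W.1 n x x = (S n x : ℂ) := by
    intro n x
    have h1 : W.1 n = ∑ i, (star ((B₀ i).1 n)) * (B₀ i).1 n := by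
      simp only [W]
      rw [AddSubmonoidClass.coe_finsetSum, Finset.sum_apply]
      rfl
    rw [h1, Matrix.sum_apply]
    simp only [S]
    push_cast
    refine Finset.sum_congr rfl fun i _ => ?_
    rw [Matrix.mul_apply]
    refine Finset.sum_congr rfl fun z _ => ?_
    rw [Matrix.star_apply, ← Complex.ofReal_pow, ← Complex.normSq_eq_norm_sq]
    exact (Complex.normSq_eq_conj_mul_self).symm
  have hP : cls U P = 1 := by
    rw [← map_one (cls U), cls_eq_iff]
    have h1 : cls U W = cls U 1 := by rw [hW, map_one]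
    rw [cls_eq_iff] at h1
    refine squeeze_zero (fun n => nrm2_nonneg _) (fun n => ?_) h1
    refine abs_le_of_sq_le_sq' ?_ (nrm2_nonneg _) |>.2
    rw [nrm2_sq, nrm2_sq]
    apply div_le_div_of_nonneg_right _ (Nat.cast_nonneg n)
    refine Finset.sum_le_sum fun x _ => Finset.sum_le_sum fun y _ => ?_
    by_cases hxy : x = y
    · subst hxy
      have e1 : (P.1 n - (1 : BddSeq).1 n) x x = g n x - 1 := by
        show Matrix.diagonal (g n) x x - (1 : Mat n) x x = _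
        simp
      have e2 : (W.1 n - (1 : BddSeq).1 n) x x = ((S n x - 1 : ℝ) : ℂ) := by
        show W.1 n x x - (1 : Mat n) x x = _
        rw [hWx]; simp
      rw [e1, e2, Complex.norm_real]
      simp only [g]
      split_ifs with hS
      · simp only [sub_self, norm_zero]
        nlinarith [sq_nonneg ‖S n x - 1‖]
      · push Not at hS
        have : (1 : ℝ) ≤ ‖S n x - 1‖ := by
          rw [Real.norm_eq_abs, abs_of_nonneg (by linarith)]; linarith
        simp only [zero_sub, norm_neg, norm_one]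
        nlinarith
    · have e1 : (P.1 n - (1 : BddSeq).1 n) x y = 0 := by
        show Matrix.diagonal (g n) x y - (1 : Mat n) x y = _
        simp [hxy]
      rw [e1]; simp
  refine ⟨fun i => B₀ i * P, fun i => by rw [map_mul, hP, mul_one, hB₀], fun n x => ?_⟩
  have h1 : ∀ i z, ‖(B₀ i * P).1 n z x‖ ^ 2 = ‖(B₀ i).1 n z x‖ ^ 2 * ‖g n x‖ ^ 2 := by
    intro i z
    have : (B₀ i * P).1 n z x = (B₀ i).1 n z x * g n x := by
      show ((B₀ i).1 n * Matrix.diagonal (g n)) z x = _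
      rw [Matrix.mul_diagonal]
    rw [this, norm_mul, mul_pow]
  simp only [h1, ← Finset.sum_mul]
  show S n x * ‖g n x‖ ^ 2 ≤ 2
  simp only [g]
  split_ifs with hS
  · simpa using hS
  · simp

omit [DecidableEq L] in
/-- lifts of the matrix units -/
noncomputable def EE (B : L → BddSeq) (i j : L) : BddSeq := star (B i) * B j

omit [Fintype L] [DecidableEq L] in
theorem EE_apply (B : L → BddSeq) (i j : L) (n : ℕ) (x y : Fin n) :
    (EE B i j).1 n x y = ∑ z, star ((B i).1 n z x) * (B j).1 n z y := by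
  show (star ((B i).1 n) * (B j).1 n) x y = _
  rw [Matrix.mul_apply]
  rfl

omit [DecidableEq L] in
theorem EE_bound {B : L → BddSeq} (hB : ∀ n x, ∑ i, ∑ z, ‖(B i).1 n z x‖ ^ 2 ≤ 2) (n : ℕ)
    (x y : Fin n) : ∑ i, ∑ j, ‖(EE B i j).1 n x y‖ ^ 2 ≤ 4 := by
  have h1 : ∀ i j, ‖(EE B i j).1 n x y‖ ^ 2 ≤
      (∑ z, ‖(B i).1 n z x‖ ^ 2) * (∑ z, ‖(B j).1 n z y‖ ^ 2) := by
    intro i j
    rw [EE_apply]
    have h2 : ‖∑ z, star ((B i).1 n z x) * (B j).1 n z y‖ ≤
        ∑ z, ‖(B i).1 n z x‖ * ‖(B j).1 n z y‖ := by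
      refine (norm_sum_le _ _).trans (le_of_eq ?_)
      refine Finset.sum_congr rfl fun z _ => ?_
      rw [norm_mul, norm_star]
    refine (pow_le_pow_left₀ (norm_nonneg _) h2 2).trans ?_
    exact Finset.sum_mul_sq_le_sq_mul_sq _ _ _
  calc ∑ i, ∑ j, ‖(EE B i j).1 n x y‖ ^ 2
      ≤ ∑ i, ∑ j, (∑ z, ‖(B i).1 n z x‖ ^ 2) * (∑ z, ‖(B j).1 n z y‖ ^ 2) :=
        Finset.sum_le_sum fun i _ => Finset.sum_le_sum fun j _ => h1 i j
    _ = (∑ i, ∑ z, ‖(B i).1 n z x‖ ^ 2) * (∑ j, ∑ z, ‖(B j).1 n z y‖ ^ 2) := by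
        rw [Finset.sum_mul_sum]
    _ ≤ 2 * 2 := mul_le_mul (hB n x) (hB n y)
        (Finset.sum_nonneg fun i _ => Finset.sum_nonneg fun z _ => sq_nonneg _) (by norm_num)
    _ = 4 := by norm_num

theorem cls_EE (ρ : Matrix L L ℂ →⋆ₐ[ℂ] MatUlt U) {o : L} {B : L → BddSeq}
    (hB : ∀ i, cls U (B i) = ρ (Matrix.single o i 1)) (i j : L) :
    cls U (EE B i j) = ρ (Matrix.single i j 1) := by
  rw [EE, map_mul, ← star_cls, hB, hB, ← map_star, ← map_mul]
  congr 1
  rw [Matrix.star_eq_conjTranspose, Matrix.conjTranspose_single, star_one,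
    Matrix.single_mul_single_same, mul_one]

theorem sum_single_diag : ∑ j : L, Matrix.single j j (1 : ℂ) = 1 := by
  ext a b
  simp only [Matrix.sum_apply, Matrix.single_apply]
  by_cases h : a = b
  · subst h; simp
  · rw [Matrix.one_apply_ne h]
    apply Finset.sum_eq_zero
    intro i _
    rw [if_neg]
    rintro ⟨h1, h2⟩
    exact h (h1.symm.trans h2)

theorem EE_lim (hU : (U : Filter ℕ) ≤ cofinite) (ρ : Matrix L L ℂ →⋆ₐ[ℂ] MatUlt U) {o : L}
    {B : L → BddSeq} (hB : ∀ i, cls U (B i) = ρ (Matrix.single o i 1)) :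
    Tendsto (fun n => ∑ i, ∑ j, nrm2 ((EE B i j).1 n) ^ 2) U (𝓝 (Fintype.card L)) := by
  have hE := cls_EE U ρ hB
  set t : ℕ → ℝ := fun n => trn ((EE B o o).1 n) with ht
  have ha : ∀ j, Tendsto (fun n => trn ((EE B j j).1 n) - t n) U (𝓝 0) := by
    intro j
    have h1 : cls U (B j * star (B j)) = cls U (EE B o o) := by
      rw [hE, map_mul, ← star_cls, hB, ← map_star, ← map_mul]
      congr 1
      rw [Matrix.star_eq_conjTranspose, Matrix.conjTranspose_single, star_one,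
        Matrix.single_mul_single_same, mul_one]
    have h2 := trn_lim U h1
    refine h2.congr (fun n => ?_)
    have : trn ((B j * star (B j)).1 n) = trn ((EE B j j).1 n) := by
      show trn ((B j).1 n * star ((B j).1 n)) = trn (star ((B j).1 n) * (B j).1 n)
      exact trn_mul_comm _ _
    rw [this]
  have hb : Tendsto (fun n => ∑ j, trn ((EE B j j).1 n)) U (𝓝 1) := by
    have h1 : cls U (∑ j, EE B j j) = 1 := by
      rw [map_sum, ← map_one ρ, ← sum_single_diag, map_sum]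
      exact Finset.sum_congr rfl fun j _ => hE j j
    refine (trn_lim_const U hU h1).congr (fun n => ?_)
    rw [AddSubmonoidClass.coe_finsetSum, Finset.sum_apply, trn_sum]
  have hq : Tendsto (fun n => (Fintype.card L : ℝ) * t n) U (𝓝 1) := by
    have h1 : Tendsto (fun n => ∑ j, (trn ((EE B j j).1 n) - t n)) U (𝓝 (∑ _j : L, (0 : ℝ))) :=
      tendsto_finsetSum _ (fun j _ => ha j)
    rw [Finset.sum_const_zero] at h1
    have h2 := hb.sub h1
    rw [sub_zero] at h2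
    refine h2.congr (fun n => ?_)
    rw [Finset.sum_sub_distrib]
    simp
  have hc : ∀ i j, Tendsto (fun n => nrm2 ((EE B i j).1 n) ^ 2 - t n) U (𝓝 0) := by
    intro i j
    have h1 : cls U (star (EE B i j) * EE B i j) = cls U (EE B j j) := by
      rw [map_mul, ← star_cls, hE, hE, ← map_star, ← map_mul]
      congr 1
      rw [Matrix.star_eq_conjTranspose, Matrix.conjTranspose_single, star_one,
        Matrix.single_mul_single_same, mul_one]
    have h2 := (trn_lim U h1).add (ha j)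
    rw [add_zero] at h2
    refine h2.congr (fun n => ?_)
    have : trn ((star (EE B i j) * EE B i j).1 n) = nrm2 ((EE B i j).1 n) ^ 2 := by
      rw [nrm2_sq']; rfl
    rw [this]; ring
  have hd : Tendsto (fun n => ∑ i : L, ∑ j : L, (nrm2 ((EE B i j).1 n) ^ 2 - t n)) U
      (𝓝 (∑ _i : L, ∑ _j : L, (0 : ℝ))) :=
    tendsto_finsetSum _ (fun i _ => tendsto_finsetSum _ (fun j _ => hc i j))
  simp only [Finset.sum_const_zero] at hd
  have h3 := hd.add (hq.const_mul (Fintype.card L : ℝ))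
  rw [zero_add, mul_one] at h3
  refine h3.congr (fun n => ?_)
  simp only [Finset.sum_sub_distrib, Finset.sum_const, Finset.card_univ, nsmul_eq_mul]
  ring

/-- the random unitaries -/
noncomputable def uu (H : Matrix L L ℂ) (ε δ : L → Bool) : Matrix L L ℂ :=
  Matrix.diagonal (fun i => sg (ε i)) * (H * Matrix.diagonal (fun i => sg (δ i)) * H)

theorem uu_apply (H : Matrix L L ℂ) (ε δ : L → Bool) (i j : L) :
    uu H ε δ i j = ∑ k, sg (ε i) * sg (δ k) * (H i k * H k j) := by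
  rw [uu, Matrix.diagonal_mul, Matrix.mul_apply, Finset.mul_sum]
  refine Finset.sum_congr rfl fun k _ => ?_
  rw [Matrix.mul_diagonal]
  ring

theorem diag_sg_mul (ε : L → Bool) :
    Matrix.diagonal (fun i => sg (ε i)) * Matrix.diagonal (fun i => sg (ε i)) = 1 := by
  rw [Matrix.diagonal_mul_diagonal]
  simp [sg_mul_self]

omit [Fintype L] in
theorem star_diag_sg (ε : L → Bool) :
    star (Matrix.diagonal (fun i => sg (ε i))) = Matrix.diagonal (fun i => sg (ε i)) := by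
  rw [Matrix.star_eq_conjTranspose, Matrix.diagonal_conjTranspose]
  congr 1
  funext i
  exact star_sg _

theorem uu_unitary {H : Matrix L L ℂ} (h1 : star H = H) (h2 : H * H = 1) (ε δ : L → Bool) :
    star (uu H ε δ) * uu H ε δ = 1 := by
  rw [uu]
  simp only [star_mul, star_diag_sg, h1]
  set D := Matrix.diagonal (fun i => sg (ε i)) with hD
  set D' := Matrix.diagonal (fun i => sg (δ i)) with hD'
  have e1 : D * D = 1 := diag_sg_mul ε
  have e2 : D' * D' = 1 := diag_sg_mul δ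
  calc H * (D' * H) * D * (D * (H * D' * H)) = H * D' * H * (D * D) * H * D' * H := by
        simp only [mul_assoc]
    _ = H * D' * (H * H) * D' * H := by rw [e1]; simp only [mul_assoc, mul_one]
    _ = H * (D' * D') * H := by rw [h2]; simp only [mul_assoc, mul_one]
    _ = 1 := by rw [e2, mul_one, h2]

/-- the lift of the random unitary -/
noncomputable def RR (B : L → BddSeq) (H : Matrix L L ℂ) (ε δ : L → Bool) : BddSeq :=
  ∑ i, ∑ j, uu H ε δ i j • EE B i j

theorem cls_RR (ρ : Matrix L L ℂ →⋆ₐ[ℂ] MatUlt U) {o : L} {B : L → BddSeq}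
    (hB : ∀ i, cls U (B i) = ρ (Matrix.single o i 1)) (H : Matrix L L ℂ) (ε δ : L → Bool) :
    cls U (RR B H ε δ) = ρ (uu H ε δ) := by
  conv_rhs => rw [Matrix.matrix_eq_sum_single (uu H ε δ)]
  rw [RR, map_sum, map_sum]
  refine Finset.sum_congr rfl fun i _ => ?_
  rw [map_sum, map_sum]
  refine Finset.sum_congr rfl fun j _ => ?_
  rw [map_smul, cls_EE U ρ hB, ← map_smul, Matrix.smul_single, smul_eq_mul, mul_one]

theorem RR_apply (B : L → BddSeq) (H : Matrix L L ℂ) (ε δ : L → Bool) (n : ℕ) (x y : Fin n) :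
    (RR B H ε δ).1 n x y = ∑ i, ∑ k, sg (ε i) * sg (δ k) *
      (H i k * ∑ j, H k j * (EE B i j).1 n x y) := by
  have h1 : (RR B H ε δ).1 n = ∑ i, ∑ j, uu H ε δ i j • (EE B i j).1 n := by
    rw [RR, AddSubmonoidClass.coe_finsetSum, Finset.sum_apply]
    refine Finset.sum_congr rfl fun i _ => ?_
    rw [AddSubmonoidClass.coe_finsetSum, Finset.sum_apply]
    rfl
  rw [h1, Matrix.sum_apply]
  refine Finset.sum_congr rfl fun i _ => ?_
  rw [Matrix.sum_apply]
  simp only [Matrix.smul_apply, smul_eq_mul, uu_apply, Finset.sum_mul, Finset.mul_sum]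
  rw [Finset.sum_comm]
  refine Finset.sum_congr rfl fun k _ => Finset.sum_congr rfl fun j _ => ?_
  ring

/-- `H` preserves the euclidean norm -/
theorem H_norm {H : Matrix L L ℂ} (h1 : star H = H) (h2 : H * H = 1) (v : L → ℂ) :
    ∑ k, ‖∑ j, H k j * v j‖ ^ 2 = ∑ j, ‖v j‖ ^ 2 := by
  have key : ∀ w : L → ℂ, ((∑ k, ‖w k‖ ^ 2 : ℝ) : ℂ) = star w ⬝ᵥ w := by
    intro w
    rw [dotProduct]
    push_cast
    refine Finset.sum_congr rfl fun k _ => ?_
    rw [Pi.star_apply, ← Complex.ofReal_pow, ← Complex.normSq_eq_norm_sq]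
    exact Complex.normSq_eq_conj_mul_self
  have h3 : ((∑ k, ‖∑ j, H k j * v j‖ ^ 2 : ℝ) : ℂ) = ((∑ j, ‖v j‖ ^ 2 : ℝ) : ℂ) := by
    have e1 : ∀ k, ∑ j, H k j * v j = (H *ᵥ v) k := fun k => rfl
    simp only [e1]
    rw [key, key, Matrix.star_mulVec, Matrix.dotProduct_mulVec, Matrix.vecMul_vecMul,
      ← Matrix.star_eq_conjTranspose, h1, h2, Matrix.vecMul_one]
  exact_mod_cast h3

/-- average fourth moment -/
theorem avg_four {B : L → BddSeq} (hB : ∀ n x, ∑ i, ∑ z, ‖(B i).1 n z x‖ ^ 2 ≤ 2)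
    {H : Matrix L L ℂ} (h1 : star H = H) (h2 : H * H = 1)
    (h3 : ∀ i k, ‖H i k‖ ^ 2 = 1 / (Fintype.card L : ℝ)) (n : ℕ) (x y : Fin n) :
    ∑ ε : L → Bool, ∑ δ : L → Bool, ‖(RR B H ε δ).1 n x y‖ ^ 4 ≤
      36 * (Fintype.card (L → Bool) : ℝ) ^ 2 / (Fintype.card L : ℝ) ^ 2 *
        ∑ i, ∑ j, ‖(EE B i j).1 n x y‖ ^ 2 := by
  simp only [RR_apply]
  refine (khin_bil (fun i k => H i k * ∑ j, H k j * (EE B i j).1 n x y)).trans ?_
  set T := ∑ i, ∑ j, ‖(EE B i j).1 n x y‖ ^ 2 with hT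
  have hT0 : 0 ≤ T := Finset.sum_nonneg fun i _ => Finset.sum_nonneg fun j _ => sq_nonneg _
  have hT4 : T ≤ 4 := EE_bound hB n x y
  have e1 : ∑ i, ∑ k, ‖H i k * ∑ j, H k j * (EE B i j).1 n x y‖ ^ 2 =
      1 / (Fintype.card L : ℝ) * T := by
    rw [hT, Finset.mul_sum]
    refine Finset.sum_congr rfl fun i _ => ?_
    rw [← H_norm h1 h2 (fun j => (EE B i j).1 n x y), Finset.mul_sum]
    refine Finset.sum_congr rfl fun k _ => ?_
    rw [norm_mul, mul_pow, h3]
  rw [e1]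
  set N := (Fintype.card (L → Bool) : ℝ)
  set q := (Fintype.card L : ℝ)
  calc 9 * N * N * (1 / q * T) ^ 2 = (9 * N ^ 2 / q ^ 2) * (T * T) := by ring
    _ ≤ (9 * N ^ 2 / q ^ 2) * (4 * T) :=
        mul_le_mul_of_nonneg_left (mul_le_mul_of_nonneg_right hT4 hT0) (by positivity)
    _ = 36 * N ^ 2 / q ^ 2 * T := by ring

theorem exists_signs (hU : (U : Filter ℕ) ≤ cofinite) (ρ : Matrix L L ℂ →⋆ₐ[ℂ] MatUlt U) {o : L}
    {B : L → BddSeq} (hB0 : ∀ i, cls U (B i) = ρ (Matrix.single o i 1))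
    (hB : ∀ n x, ∑ i, ∑ z, ‖(B i).1 n z x‖ ^ 2 ≤ 2)
    {H : Matrix L L ℂ} (h1 : star H = H) (h2 : H * H = 1)
    (h3 : ∀ i k, ‖H i k‖ ^ 2 = 1 / (Fintype.card L : ℝ)) :
    ∃ ε δ : L → Bool, ∀ᶠ n in (U : Filter ℕ),
      (∑ x, ∑ y, ‖(RR B H ε δ).1 n x y‖ ^ 4) / (n : ℝ) ≤ 72 / (Fintype.card L : ℝ) := by
  have hq : (0 : ℝ) < Fintype.card L := by
    exact_mod_cast Fintype.card_pos_iff.2 ⟨o⟩
  have hlim := EE_lim U hU ρ hB0
  have hev : ∀ᶠ n in (U : Filter ℕ), ∑ i, ∑ j, nrm2 ((EE B i j).1 n) ^ 2 <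
      2 * (Fintype.card L : ℝ) := hlim.eventually (gt_mem_nhds (by linarith))
  have hex : ∀ᶠ n in (U : Filter ℕ), ∃ p : (L → Bool) × (L → Bool),
      (∑ x, ∑ y, ‖(RR B H p.1 p.2).1 n x y‖ ^ 4) / (n : ℝ) ≤ 72 / (Fintype.card L : ℝ) := by
    filter_upwards [hev] with n hn
    have hsum : ∑ p : (L → Bool) × (L → Bool),
        (∑ x, ∑ y, ‖(RR B H p.1 p.2).1 n x y‖ ^ 4) / (n : ℝ) ≤
        ∑ _p : (L → Bool) × (L → Bool), 72 / (Fintype.card L : ℝ) := by
      have e1 : ∑ p : (L → Bool) × (L → Bool),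
          (∑ x, ∑ y, ‖(RR B H p.1 p.2).1 n x y‖ ^ 4) / (n : ℝ) =
          (∑ x, ∑ y, ∑ ε : L → Bool, ∑ δ : L → Bool, ‖(RR B H ε δ).1 n x y‖ ^ 4) / (n : ℝ) := by
        rw [← Finset.sum_div]
        congr 1
        rw [Finset.sum_comm]
        refine Finset.sum_congr rfl fun x _ => ?_
        rw [Finset.sum_comm]
        refine Finset.sum_congr rfl fun y _ => ?_
        rw [Fintype.sum_prod_type]
      rw [e1]
      have e2 : (∑ x, ∑ y, ∑ ε : L → Bool, ∑ δ : L → Bool, ‖(RR B H ε δ).1 n x y‖ ^ 4) ≤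
          36 * (Fintype.card (L → Bool) : ℝ) ^ 2 / (Fintype.card L : ℝ) ^ 2 *
            ∑ x, ∑ y, ∑ i, ∑ j, ‖(EE B i j).1 n x y‖ ^ 2 := by
        rw [Finset.mul_sum]
        refine Finset.sum_le_sum fun x _ => ?_
        rw [Finset.mul_sum]
        exact Finset.sum_le_sum fun y _ => avg_four hB h1 h2 h3 n x y
      have e3 : (∑ x, ∑ y, ∑ i, ∑ j, ‖(EE B i j).1 n x y‖ ^ 2) / (n : ℝ) =
          ∑ i, ∑ j, nrm2 ((EE B i j).1 n) ^ 2 := by
        simp only [nrm2_sq]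
        simp only [← Finset.sum_div]
        congr 1
        calc ∑ x, ∑ y, ∑ i, ∑ j, ‖(EE B i j).1 n x y‖ ^ 2
            = ∑ x, ∑ i, ∑ y, ∑ j, ‖(EE B i j).1 n x y‖ ^ 2 :=
              Finset.sum_congr rfl fun x _ => Finset.sum_comm
          _ = ∑ i, ∑ x, ∑ y, ∑ j, ‖(EE B i j).1 n x y‖ ^ 2 := Finset.sum_comm
          _ = ∑ i, ∑ x, ∑ j, ∑ y, ‖(EE B i j).1 n x y‖ ^ 2 :=
              Finset.sum_congr rfl fun i _ => Finset.sum_congr rfl fun x _ => Finset.sum_comm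
          _ = ∑ i, ∑ j, ∑ x, ∑ y, ‖(EE B i j).1 n x y‖ ^ 2 :=
              Finset.sum_congr rfl fun i _ => Finset.sum_comm
      calc (∑ x, ∑ y, ∑ ε : L → Bool, ∑ δ : L → Bool, ‖(RR B H ε δ).1 n x y‖ ^ 4) / (n : ℝ)
          ≤ (36 * (Fintype.card (L → Bool) : ℝ) ^ 2 / (Fintype.card L : ℝ) ^ 2 *
            ∑ x, ∑ y, ∑ i, ∑ j, ‖(EE B i j).1 n x y‖ ^ 2) / (n : ℝ) :=
            div_le_div_of_nonneg_right e2 (Nat.cast_nonneg _)
        _ = 36 * (Fintype.card (L → Bool) : ℝ) ^ 2 / (Fintype.card L : ℝ) ^ 2 *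
            ∑ i, ∑ j, nrm2 ((EE B i j).1 n) ^ 2 := by rw [← e3]; ring
        _ ≤ 36 * (Fintype.card (L → Bool) : ℝ) ^ 2 / (Fintype.card L : ℝ) ^ 2 *
            (2 * (Fintype.card L : ℝ)) := mul_le_mul_of_nonneg_left hn.le (by positivity)
        _ = ∑ _p : (L → Bool) × (L → Bool), 72 / (Fintype.card L : ℝ) := by
            rw [Finset.sum_const, Finset.card_univ, Fintype.card_prod, nsmul_eq_mul]
            push_cast
            field_simp
            ring
    obtain ⟨p, _, hp⟩ := Finset.exists_le_of_sum_le Finset.univ_nonempty hsum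
    exact ⟨p, hp⟩
  by_contra hcon
  have h4 : ∀ p : (L → Bool) × (L → Bool), ∀ᶠ n in (U : Filter ℕ),
      ¬ (∑ x, ∑ y, ‖(RR B H p.1 p.2).1 n x y‖ ^ 4) / (n : ℝ) ≤ 72 / (Fintype.card L : ℝ) := by
    intro p
    rw [Ultrafilter.eventually_not]
    intro h
    exact hcon ⟨p.1, p.2, h⟩
  have h5 := eventually_all.2 h4
  obtain ⟨n, hn1, hn2⟩ := (hex.and h5).exists
  obtain ⟨p, hp⟩ := hn1
  exact hn2 p hp

/-- correlation with a permutation is bounded by the fourth moment of the entries -/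
theorem corr_le {n : ℕ} (hn : 1 ≤ n) (R : Mat n) (σ : Equiv.Perm (Fin n)) {η : ℝ} (hη : 0 ≤ η)
    (h : (∑ x, ∑ y, ‖R x y‖ ^ 4) / (n : ℝ) ≤ η ^ 4) : (∑ x, ‖R x (σ x)‖) / (n : ℝ) ≤ η := by
  have hn' : (0 : ℝ) < n := by exact_mod_cast hn
  have h1 := Real.pow_arith_mean_le_arith_mean_pow (Finset.univ : Finset (Fin n))
    (fun _ => 1 / (n : ℝ)) (fun x => ‖R x (σ x)‖) (fun _ _ => by positivity)
    (by simp [hn'.ne']) (fun _ _ => norm_nonneg _) 4
  have h2 : ∑ x, 1 / (n : ℝ) * ‖R x (σ x)‖ = (∑ x, ‖R x (σ x)‖) / (n : ℝ) := by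
    rw [← Finset.mul_sum]; ring
  have h3 : ∑ x, 1 / (n : ℝ) * ‖R x (σ x)‖ ^ 4 ≤ (∑ x, ∑ y, ‖R x y‖ ^ 4) / (n : ℝ) := by
    rw [← Finset.mul_sum, one_div, inv_mul_eq_div]
    apply div_le_div_of_nonneg_right _ hn'.le
    refine Finset.sum_le_sum fun x _ => ?_
    exact Finset.single_le_sum (f := fun y => ‖R x y‖ ^ 4) (fun y _ => by positivity)
      (Finset.mem_univ (σ x))
  rw [h2] at h1
  exact (pow_le_pow_iff_left₀ (by positivity) hη (by norm_num)).1 ((h1.trans h3).trans h)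

theorem trn_star_mul {n : ℕ} (A R : Mat n) : trn (Aᴴ * R) = trn (Rᴴ * A) := by
  have : (Aᴴ * R) = (Rᴴ * A)ᴴ := by rw [Matrix.conjTranspose_mul, Matrix.conjTranspose_conjTranspose]
  rw [this, trn, trn, Matrix.trace_conjTranspose]
  simp

/-- **Finite estimate.** A unital homomorphic image of a large matrix algebra contains a unitary,
of a special form, that is far from all short combinations of permutations. -/
theorem finite_est (hU : (U : Filter ℕ) ≤ cofinite) [Nonempty L]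
    (ρ : Matrix L L ℂ →⋆ₐ[ℂ] MatUlt U)
    {H : Matrix L L ℂ} (h1 : star H = H) (h2 : H * H = 1)
    (h3 : ∀ i k, ‖H i k‖ ^ 2 = 1 / (Fintype.card L : ℝ)) (K : ℕ)
    (hK : 72 * (8 * ((K : ℝ) ^ 2 + 1)) ^ 4 ≤ (Fintype.card L : ℝ)) :
    ∃ ε δ : L → Bool, ∀ a ∈ Cx U K, 1 / 2 ≤ nrmU U (ρ (uu H ε δ) - a) := by
  obtain ⟨o⟩ := ‹Nonempty L›
  obtain ⟨B, hB0, hB⟩ := good_lifts U ρ o
  obtain ⟨ε, δ, hQ⟩ := exists_signs U hU ρ hB0 hB h1 h2 h3
  refine ⟨ε, δ, fun a ha => ?_⟩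
  by_contra hcon
  push Not at hcon
  obtain ⟨ι, hι, c, σ, k1, k2, rfl⟩ := ha
  set R := RR B H ε δ with hR
  have hRc : cls U R = ρ (uu H ε δ) := cls_RR U ρ hB0 H ε δ
  set A : BddSeq := ∑ l, c l • (⟨fun n => (σ l n).permMatrix ℂ, ⟨1, fun n => norm_perm_le _⟩⟩ :
    BddSeq) with hA
  have hAc : cls U A = ∑ l, c l • permCls U (σ l) := by
    rw [hA, map_sum]
    refine Finset.sum_congr rfl fun l _ => ?_
    rw [map_smul]
    rfl
  have hAn : ∀ n, A.1 n = ∑ l, c l • (σ l n).permMatrix ℂ := by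
    intro n
    rw [hA, AddSubmonoidClass.coe_finsetSum, Finset.sum_apply]
    rfl
  rw [← hRc, ← hAc, ← map_sub] at hcon
  have hev1 : ∀ᶠ n in (U : Filter ℕ), nrm2 (R.1 n - A.1 n) < 1 / 2 :=
    (tendsto_nrmU U (R - A)).eventually (gt_mem_nhds hcon)
  have hRR : cls U (star R * R) = 1 := by
    rw [map_mul, ← star_cls, hRc, ← map_star, ← map_mul, uu_unitary h1 h2, map_one]
  have hev2 : ∀ᶠ n in (U : Filter ℕ), 3 / 4 < nrm2 (R.1 n) ^ 2 := by
    have h5 := trn_lim_const U hU hRR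
    have h6 : Tendsto (fun n => nrm2 (R.1 n) ^ 2) U (𝓝 1) := by
      refine h5.congr (fun n => ?_)
      rw [nrm2_sq']; rfl
    exact h6.eventually (lt_mem_nhds (by norm_num))
  have hev3 : ∀ᶠ n : ℕ in (U : Filter ℕ), 1 ≤ n := by
    rw [Nat.cofinite_eq_atTop] at hU
    exact hU (eventually_ge_atTop 1)
  obtain ⟨n, ⟨⟨hn1, hn2⟩, hn3⟩, hn4⟩ := (((hev1.and hev2).and hev3).and hQ).exists
  -- the threshold
  set q := (Fintype.card L : ℝ) with hq
  set η : ℝ := 1 / (8 * ((K : ℝ) ^ 2 + 1)) with hη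
  have hη0 : 0 ≤ η := by positivity
  have hqpos : 0 < q := lt_of_lt_of_le (by positivity) hK
  have hη4 : 72 / q ≤ η ^ 4 := by
    rw [hη, div_pow, one_pow, div_le_div_iff₀ hqpos (by positivity)]
    linarith
  have hcor : ∀ l, (∑ x, ‖(R.1 n) x (σ l n x)‖) / (n : ℝ) ≤ η :=
    fun l => corr_le hn3 _ _ hη0 (hn4.trans hη4)
  have hn' : (0 : ℝ) < n := by exact_mod_cast hn3
  -- the correlation with `A`
  have hAR : |trn ((A.1 n)ᴴ * R.1 n)| ≤ (K : ℝ) ^ 2 * η := by
    have e1 : Matrix.trace ((A.1 n)ᴴ * R.1 n) =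
        ∑ l, star (c l) * ∑ x, (R.1 n) x (σ l n x) := by
      rw [hAn, Matrix.conjTranspose_sum, Finset.sum_mul, Matrix.trace_sum]
      refine Finset.sum_congr rfl fun l _ => ?_
      rw [Matrix.conjTranspose_smul, Matrix.smul_mul, Matrix.trace_smul, smul_eq_mul]
      congr 1
      simp only [Matrix.trace, Matrix.diag_apply, Matrix.mul_apply, Matrix.conjTranspose_apply]
      rw [Finset.sum_comm]
      refine Finset.sum_congr rfl fun x _ => ?_
      rw [Finset.sum_eq_single (σ l n x)]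
      · simp [Equiv.Perm.permMatrix, PEquiv.toMatrix_apply]
      · intro y _ hy
        have : ((σ l n).permMatrix ℂ) x y = 0 := by
          simp [Equiv.Perm.permMatrix, PEquiv.toMatrix_apply, Ne.symm hy]
        rw [this]; simp
      · simp
    rw [trn, abs_div, abs_of_pos hn', div_le_iff₀ hn']
    refine (Complex.abs_re_le_norm _).trans ?_
    rw [e1]
    refine (norm_sum_le _ _).trans ?_
    have e2 : ∀ l, ‖star (c l) * ∑ x, (R.1 n) x (σ l n x)‖ ≤ (K : ℝ) * (η * n) := by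
      intro l
      rw [norm_mul, norm_star]
      refine mul_le_mul (k2 l) ?_ (norm_nonneg _) (Nat.cast_nonneg _)
      refine (norm_sum_le _ _).trans ?_
      have := hcor l
      rwa [div_le_iff₀ hn'] at this
    calc ∑ l, ‖star (c l) * ∑ x, (R.1 n) x (σ l n x)‖ ≤ ∑ _l : ι, (K : ℝ) * (η * n) :=
          Finset.sum_le_sum fun l _ => e2 l
      _ = (Fintype.card ι : ℝ) * ((K : ℝ) * (η * n)) := by simp
      _ ≤ (K : ℝ) * ((K : ℝ) * (η * n)) := by
          apply mul_le_mul_of_nonneg_right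
          · exact_mod_cast k1
          · positivity
      _ = (K : ℝ) ^ 2 * η * n := by ring
  have hexp : nrm2 (R.1 n - A.1 n) ^ 2 = nrm2 (R.1 n) ^ 2 - 2 * trn ((A.1 n)ᴴ * R.1 n) +
      nrm2 (A.1 n) ^ 2 := by
    rw [nrm2_sq', nrm2_sq', nrm2_sq', Matrix.conjTranspose_sub, sub_mul, mul_sub, mul_sub,
      trn_sub, trn_sub, trn_sub, trn_star_mul (R.1 n) (A.1 n)]
    ring
  have h7 : nrm2 (R.1 n - A.1 n) ^ 2 < (1 / 2) ^ 2 := by
    have := nrm2_nonneg (R.1 n - A.1 n)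
    nlinarith
  have h8 : (K : ℝ) ^ 2 * η ≤ 1 / 8 := by
    rw [hη, mul_one_div, div_le_div_iff₀ (by positivity) (by norm_num)]
    linarith
  have h9 := (abs_le.1 hAR).2
  nlinarith [sq_nonneg (nrm2 (A.1 n))]

end Pool.Agent.Helper687.MU
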