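import Pool.Agent.Helper687_MU.Cplx

/-!
# Infinite tensor products of unitaries in the matrix ultraproduct
-/

set_option autoImplicit false

namespace Pool.Agent.Helper687.MU

open Filter Topology Matrix
open scoped Matrix.Norms.L2Operator Kronecker

section tens

variable {ι : ℕ → Type} [∀ i, Fintype (ι i)] [∀ i, DecidableEq (ι i)]

/-- finite products of the index types -/
abbrev Lam (ι : ℕ → Type) (k : ℕ) : Type := (i : Fin k) → ι i

/-- the tensor product of the first `k` matrices -/
def tens (k : ℕ) (w : (i : ℕ) → Matrix (ι i) (ι i) ℂ) : Matrix (Lam ι k) (Lam ι k) ℂ :=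
  Matrix.of fun x y => ∏ i : Fin k, w i (x i) (y i)

omit [∀ i, Fintype (ι i)] [∀ i, DecidableEq (ι i)] in
theorem tens_apply (k : ℕ) (w : (i : ℕ) → Matrix (ι i) (ι i) ℂ) (x y : Lam ι k) :
    tens k w x y = ∏ i : Fin k, w i (x i) (y i) := rfl

theorem tens_mul (k : ℕ) (w w' : (i : ℕ) → Matrix (ι i) (ι i) ℂ) :
    tens k w * tens k w' = tens k (fun i => w i * w' i) := by
  ext x y
  rw [Matrix.mul_apply]
  simp only [tens_apply, ← Finset.prod_mul_distrib, Matrix.mul_apply]
  rw [Finset.prod_univ_sum]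
  rw [Fintype.piFinset_univ]

theorem tens_star (k : ℕ) (w : (i : ℕ) → Matrix (ι i) (ι i) ℂ) :
    star (tens k w) = tens k (fun i => star (w i)) := by
  ext x y
  rw [Matrix.star_apply, tens_apply, tens_apply]
  simp [Matrix.star_apply]

theorem tens_one (k : ℕ) : tens k (fun i => (1 : Matrix (ι i) (ι i) ℂ)) = 1 := by
  ext x y
  rw [tens_apply]
  by_cases h : x = y
  · subst h; simp
  · rw [Matrix.one_apply_ne h]
    obtain ⟨i, hi⟩ := Function.ne_iff.1 h
    exact Finset.prod_eq_zero (Finset.mem_univ i) (Matrix.one_apply_ne hi)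

/-- the family which is `m` at `i` and `1` elsewhere -/
def upd (i : ℕ) (m : Matrix (ι i) (ι i) ℂ) : (j : ℕ) → Matrix (ι j) (ι j) ℂ :=
  Function.update (fun _ => 1) i m

omit [∀ i, Fintype (ι i)] in
theorem upd_same (i : ℕ) (m : Matrix (ι i) (ι i) ℂ) : upd i m i = m := by simp [upd]

omit [∀ i, Fintype (ι i)] in
theorem upd_ne {i j : ℕ} (m : Matrix (ι i) (ι i) ℂ) (h : j ≠ i) : upd i m j = 1 := by
  simp [upd, h]

theorem upd_mul (i : ℕ) (m m' : Matrix (ι i) (ι i) ℂ) :
    (fun j => upd i m j * upd i m' j) = upd i (m * m') := by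
  funext j
  by_cases h : j = i
  · subst h; simp [upd_same]
  · simp [upd_ne _ h]

theorem upd_star (i : ℕ) (m : Matrix (ι i) (ι i) ℂ) :
    (fun j => star (upd i m j)) = upd i (star m) := by
  funext j
  by_cases h : j = i
  · subst h; simp [upd_same]
  · simp [upd_ne _ h]

theorem tens_upd_apply {k i : ℕ} (h : i < k) (m : Matrix (ι i) (ι i) ℂ) (x y : Lam ι k) :
    tens k (upd i m) x y = m (x ⟨i, h⟩) (y ⟨i, h⟩) *
      ∏ j ∈ Finset.univ.erase (⟨i, h⟩ : Fin k), (1 : Matrix (ι j) (ι j) ℂ) (x j) (y j) := by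
  rw [tens_apply, ← Finset.mul_prod_erase Finset.univ _ (Finset.mem_univ (⟨i, h⟩ : Fin k))]
  congr 1
  · show upd i m i _ _ = _
    rw [upd_same]
  · refine Finset.prod_congr rfl fun j hj => ?_
    have : (j : ℕ) ≠ i := by
      intro e
      exact (Finset.ne_of_mem_erase hj) (Fin.ext e)
    rw [upd_ne m this]

/-- the embedding of one tensor factor -/
noncomputable def tensHom {k i : ℕ} (h : i < k) :
    Matrix (ι i) (ι i) ℂ →⋆ₙₐ[ℂ] Matrix (Lam ι k) (Lam ι k) ℂ where
  toFun m := tens k (upd i m)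
  map_smul' c m := by
    ext x y
    rw [MonoidHom.id_apply, tens_upd_apply h, Matrix.smul_apply, Matrix.smul_apply,
      tens_upd_apply h, smul_eq_mul, smul_eq_mul, mul_assoc]
  map_zero' := by
    ext x y
    rw [tens_upd_apply h]; simp
  map_add' m m' := by
    ext x y
    rw [Matrix.add_apply, tens_upd_apply h, tens_upd_apply h, tens_upd_apply h, Matrix.add_apply,
      add_mul]
  map_mul' m m' := by
    show tens k (upd i (m * m')) = tens k (upd i m) * tens k (upd i m')
    rw [tens_mul, upd_mul]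
  map_star' m := by
    show tens k (upd i (star m)) = star (tens k (upd i m))
    rw [tens_star, upd_star]

end tens

/-! ### Embedding a matrix algebra in `M_n`, leaving out a small corner -/

section emb

variable {L : Type} [Fintype L] [DecidableEq L]

/-- division of `n` points in groups of size `card L` -/
noncomputable def spl (L : Type) [Fintype L] (n : ℕ) :
    Fin n ≃ (L × Fin (n / Fintype.card L)) ⊕ Fin (n % Fintype.card L) :=
  Fintype.equivOfCardEq (by
    simp only [Fintype.card_fin, Fintype.card_sum, Fintype.card_prod]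
    exact (Nat.div_add_mod n (Fintype.card L)).symm)

/-- the (non unital) embedding -/
noncomputable def emb (L : Type) [Fintype L] [DecidableEq L] (n : ℕ) :
    Matrix L L ℂ →⋆ₙₐ[ℂ] Mat n where
  toFun m := (Matrix.fromBlocks (m ⊗ₖ (1 : Matrix (Fin (n / Fintype.card L))
    (Fin (n / Fintype.card L)) ℂ)) 0 0 0).submatrix (spl L n) (spl L n)
  map_smul' c m := by
    ext x y
    rw [MonoidHom.id_apply, Matrix.smul_apply, Matrix.submatrix_apply, Matrix.submatrix_apply]
    rcases spl L n x with a | a <;> rcases spl L n y with b | b <;>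
      simp [Matrix.kroneckerMap_apply, mul_assoc]
  map_zero' := by
    ext x y
    rw [Matrix.submatrix_apply]
    rcases spl L n x with a | a <;> rcases spl L n y with b | b <;> simp
  map_add' m m' := by
    ext x y
    rw [Matrix.add_apply, Matrix.submatrix_apply, Matrix.submatrix_apply, Matrix.submatrix_apply]
    rcases spl L n x with a | a <;> rcases spl L n y with b | b <;>
      simp [Matrix.kroneckerMap_apply, add_mul]
  map_mul' m m' := by
    rw [Matrix.submatrix_mul_equiv, Matrix.fromBlocks_multiply]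
    simp only [Matrix.mul_zero, add_zero, Matrix.zero_mul]
    rw [← Matrix.mul_kronecker_mul, Matrix.one_mul]
  map_star' m := by
    rw [Matrix.star_eq_conjTranspose, Matrix.star_eq_conjTranspose,
      Matrix.conjTranspose_submatrix, Matrix.fromBlocks_conjTranspose,
      Matrix.conjTranspose_kronecker, Matrix.conjTranspose_one]
    simp

theorem emb_norm (n : ℕ) (m : Matrix L L ℂ) : ‖emb L n m‖ ≤ ‖m‖ :=
  NonUnitalStarAlgHom.norm_apply_le (emb L n) m

theorem emb_one_sub (n : ℕ) : nrm2 (emb L n 1 - 1) ^ 2 =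
    ((n % Fintype.card L : ℕ) : ℝ) / n := by
  rw [nrm2_sq]
  congr 1
  have h1 : emb L n 1 - 1 = (Matrix.fromBlocks 0 0 0 (-1)).submatrix (spl L n) (spl L n) := by
    have e1 : emb L n 1 = (Matrix.fromBlocks ((1 : Matrix L L ℂ) ⊗ₖ
      (1 : Matrix (Fin (n / Fintype.card L)) (Fin (n / Fintype.card L)) ℂ)) 0 0 0).submatrix
        (spl L n) (spl L n) := rfl
    have e2 : (1 : Mat n) = (1 : Matrix ((L × Fin (n / Fintype.card L)) ⊕
        Fin (n % Fintype.card L)) ((L × Fin (n / Fintype.card L)) ⊕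
        Fin (n % Fintype.card L)) ℂ).submatrix (spl L n) (spl L n) :=
      (Matrix.submatrix_one_equiv _).symm
    rw [e1, e2, Matrix.one_kronecker_one, ← Matrix.fromBlocks_one]
    ext x y
    rw [Matrix.sub_apply, Matrix.submatrix_apply, Matrix.submatrix_apply, Matrix.submatrix_apply]
    rcases spl L n x with a | a <;> rcases spl L n y with b | b <;> simp
  rw [h1]
  simp only [Matrix.submatrix_apply]
  rw [Equiv.sum_comp (spl L n) (fun a => ∑ j, ‖(Matrix.fromBlocks 0 0 0 (-1) :
    Matrix ((L × Fin (n / Fintype.card L)) ⊕ Fin (n % Fintype.card L))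
    ((L × Fin (n / Fintype.card L)) ⊕ Fin (n % Fintype.card L)) ℂ) a (spl L n j)‖ ^ 2)]
  have h2 : ∀ a, ∑ j, ‖(Matrix.fromBlocks 0 0 0 (-1) :
    Matrix ((L × Fin (n / Fintype.card L)) ⊕ Fin (n % Fintype.card L))
    ((L × Fin (n / Fintype.card L)) ⊕ Fin (n % Fintype.card L)) ℂ) a (spl L n j)‖ ^ 2 =
      ∑ b, ‖(Matrix.fromBlocks 0 0 0 (-1) :
    Matrix ((L × Fin (n / Fintype.card L)) ⊕ Fin (n % Fintype.card L))
    ((L × Fin (n / Fintype.card L)) ⊕ Fin (n % Fintype.card L)) ℂ) a b‖ ^ 2 := fun a =>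
    Equiv.sum_comp (spl L n) (fun b => ‖(Matrix.fromBlocks 0 0 0 (-1) :
    Matrix ((L × Fin (n / Fintype.card L)) ⊕ Fin (n % Fintype.card L))
    ((L × Fin (n / Fintype.card L)) ⊕ Fin (n % Fintype.card L)) ℂ) a b‖ ^ 2)
  simp only [h2, Fintype.sum_sum_type, Matrix.fromBlocks_apply₁₁, Matrix.fromBlocks_apply₁₂,
    Matrix.fromBlocks_apply₂₁, Matrix.fromBlocks_apply₂₂, Matrix.zero_apply, norm_zero]
  have h3 : ∀ a : Fin (n % Fintype.card L), ∑ b : Fin (n % Fintype.card L),
      ‖(-1 : Matrix (Fin (n % Fintype.card L)) (Fin (n % Fintype.card L)) ℂ) a b‖ ^ 2 = 1 := by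
    intro a
    rw [Finset.sum_eq_single a]
    · simp
    · intro b _ hb
      simp [Matrix.one_apply_ne' hb]
    · simp
  simp only [h3]
  simp

end emb

end Pool.Agent.Helper687.MU
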