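import Pool.Agent.Helper687_MU.Est
import Pool.Agent.Helper687_MU.Tens

/-!
# Hadamard matrices and commutators
-/

set_option autoImplicit false

namespace Pool.Agent.Helper687.MU

open Filter Topology Matrix
open scoped Matrix.Norms.L2Operator Kronecker

/-- the `2 × 2` Hadamard matrix -/
noncomputable def had2 : Matrix Bool Bool ℂ :=
  Matrix.of fun a b => ((1 / Real.sqrt 2 : ℝ) : ℂ) * (if a && b then -1 else 1)

theorem half_sq : ((1 / Real.sqrt 2 : ℝ) : ℂ) * ((1 / Real.sqrt 2 : ℝ) : ℂ) = 1 / 2 := by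
  rw [← Complex.ofReal_mul]
  have : (1 / Real.sqrt 2 : ℝ) * (1 / Real.sqrt 2 : ℝ) = 1 / 2 := by
    rw [div_mul_div_comm, Real.mul_self_sqrt (by norm_num)]; norm_num
  rw [this]; norm_num

theorem had2_mul : had2 * had2 = 1 := by
  have h := half_sq
  set c := ((1 / Real.sqrt 2 : ℝ) : ℂ) with hc
  have h' : c ^ 2 = 1 / 2 := by rw [sq, h]
  ext a b
  rw [Matrix.mul_apply, Fintype.sum_bool]
  simp only [had2, Matrix.of_apply, ← hc]
  cases a <;> cases b <;> simp <;> ring_nf <;> simp [h']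

theorem had2_star : star had2 = had2 := by
  ext a b
  rw [Matrix.star_apply]
  simp only [had2, Matrix.of_apply]
  cases a <;> cases b <;> simp

theorem had2_norm (a b : Bool) : ‖had2 a b‖ ^ 2 = 1 / 2 := by
  have h1 : ‖had2 a b‖ = 1 / Real.sqrt 2 := by
    simp only [had2, Matrix.of_apply]
    rw [norm_mul, Complex.norm_real, Real.norm_of_nonneg (by positivity)]
    cases a <;> cases b <;> simp
  rw [h1, div_pow, Real.sq_sqrt (by norm_num)]
  norm_num

/-- Hadamard matrices -/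
noncomputable def had (m : ℕ) : Matrix (Lam (fun _ => Bool) m) (Lam (fun _ => Bool) m) ℂ :=
  tens (ι := fun _ => Bool) m (fun _ => had2)

theorem had_star (m : ℕ) : star (had m) = had m := by
  rw [had, tens_star]
  simp only [had2_star]

theorem had_mul (m : ℕ) : had m * had m = 1 := by
  refine (tens_mul (ι := fun _ => Bool) m (fun _ => had2) (fun _ => had2)).trans ?_
  simp only [had2_mul]
  exact tens_one (ι := fun _ => Bool) m

theorem card_Lam (m : ℕ) : Fintype.card (Lam (fun _ => Bool) m) = 2 ^ m := by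
  simp [Lam]

theorem had_norm (m : ℕ) (x y : Lam (fun _ => Bool) m) :
    ‖had m x y‖ ^ 2 = 1 / (Fintype.card (Lam (fun _ => Bool) m) : ℝ) := by
  rw [had, tens_apply, norm_prod, ← Finset.prod_pow, card_Lam]
  simp only [had2_norm]
  simp

section

variable {L : Type} [Fintype L] [DecidableEq L]

/-- `m ↦ m ⊗ 1` -/
noncomputable def kr : Matrix L L ℂ →⋆ₐ[ℂ] Matrix (L × Bool) (L × Bool) ℂ where
  toFun m := m ⊗ₖ (1 : Matrix Bool Bool ℂ)
  map_one' := Matrix.one_kronecker_one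
  map_mul' m m' := by rw [← Matrix.mul_kronecker_mul, Matrix.one_mul]
  map_zero' := Matrix.zero_kronecker _
  map_add' m m' := Matrix.add_kronecker _ _ _
  commutes' c := by
    rw [Algebra.algebraMap_eq_smul_one, Algebra.algebraMap_eq_smul_one, Matrix.smul_kronecker,
      Matrix.one_kronecker_one]
  map_star' m := by
    rw [Matrix.star_eq_conjTranspose, Matrix.star_eq_conjTranspose,
      Matrix.conjTranspose_kronecker, Matrix.conjTranspose_one]

theorem kr_apply (m : Matrix L L ℂ) : kr m = m ⊗ₖ (1 : Matrix Bool Bool ℂ) := rfl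

/-- the swap -/
def sw : Matrix Bool Bool ℂ := Matrix.of fun a b => if a = b then 0 else 1

theorem sw_mul : sw * sw = 1 := by
  ext a b
  rw [Matrix.mul_apply, Fintype.sum_bool]
  cases a <;> cases b <;> simp [sw]

theorem sw_star : star sw = sw := by
  ext a b
  rw [Matrix.star_apply]
  cases a <;> cases b <;> simp [sw]

/-- `1 ⊗ swap` -/
noncomputable def mA (L : Type) [Fintype L] [DecidableEq L] : Matrix (L × Bool) (L × Bool) ℂ :=
  (1 : Matrix L L ℂ) ⊗ₖ sw

theorem mA_mul : mA L * mA L = 1 := by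
  rw [mA, ← Matrix.mul_kronecker_mul, sw_mul, Matrix.one_mul, Matrix.one_kronecker_one]

theorem mA_star : star (mA L) = mA L := by
  rw [mA, Matrix.star_eq_conjTranspose, Matrix.conjTranspose_kronecker, Matrix.conjTranspose_one,
    ← Matrix.star_eq_conjTranspose, sw_star]

/-- the entries of the controlled sign -/
noncomputable def bb (ε : L → Bool) (p : L × Bool) : ℂ :=
  if ε p.1 then 1 else (if p.2 then -1 else 1)

/-- the controlled sign -/
noncomputable def mB (ε : L → Bool) : Matrix (L × Bool) (L × Bool) ℂ := Matrix.diagonal (bb ε)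

theorem mB_mul (ε : L → Bool) : mB ε * mB ε = 1 := by
  rw [mB, Matrix.diagonal_mul_diagonal, ← Matrix.diagonal_one]
  congr 1
  funext p
  rcases p with ⟨x, p⟩
  simp only [bb]
  cases ε x <;> cases p <;> simp

omit [Fintype L] in
theorem mB_star (ε : L → Bool) : star (mB ε) = mB ε := by
  rw [mB, Matrix.star_eq_conjTranspose, Matrix.diagonal_conjTranspose]
  congr 1
  funext p
  rcases p with ⟨x, p⟩
  simp only [Pi.star_apply, bb]
  cases ε x <;> cases p <;> simp

theorem mAB (ε : L → Bool) :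
    mA L * mB ε * mA L * mB ε = kr (Matrix.diagonal (fun i => sg (ε i))) := by
  have h1 : mA L * mB ε = Matrix.diagonal (fun p : L × Bool => bb ε (p.1, !p.2)) * mA L := by
    ext ⟨x, p⟩ ⟨y, r⟩
    rw [mB, Matrix.mul_diagonal, Matrix.diagonal_mul, mA, Matrix.kroneckerMap_apply]
    by_cases hxy : x = y
    · subst hxy
      cases p <;> cases r <;> simp [sw]
    · simp [Matrix.one_apply_ne hxy]
  rw [h1, mul_assoc _ (mA L) (mA L), mA_mul, mul_one, mB, Matrix.diagonal_mul_diagonal, kr_apply]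
  ext ⟨x, p⟩ ⟨y, r⟩
  rw [Matrix.kroneckerMap_apply]
  by_cases hxy : x = y
  · subst hxy
    by_cases hpr : p = r
    · subst hpr
      simp only [Matrix.diagonal_apply_eq, Matrix.one_apply_eq, mul_one, bb, sg]
      cases ε x <;> cases p <;> simp
    · have : ((x, p) : L × Bool) ≠ (x, r) := by simp [hpr]
      rw [Matrix.diagonal_apply_ne _ this, Matrix.one_apply_ne hpr, mul_zero]
  · have : ((x, p) : L × Bool) ≠ (y, r) := by simp [hxy]
    rw [Matrix.diagonal_apply_ne _ this, Matrix.diagonal_apply_ne _ hxy, zero_mul]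

/-- as unitaries -/
noncomputable def uA (L : Type) [Fintype L] [DecidableEq L] :
    unitary (Matrix (L × Bool) (L × Bool) ℂ) :=
  ⟨mA L, by rw [Unitary.mem_iff, mA_star]; exact ⟨mA_mul, mA_mul⟩⟩

/-- as unitaries -/
noncomputable def uB (ε : L → Bool) : unitary (Matrix (L × Bool) (L × Bool) ℂ) :=
  ⟨mB ε, by rw [Unitary.mem_iff, mB_star]; exact ⟨mB_mul ε, mB_mul ε⟩⟩

/-- as unitaries -/
noncomputable def uH (H : Matrix L L ℂ) (h1 : star H = H) (h2 : H * H = 1) :
    unitary (Matrix (L × Bool) (L × Bool) ℂ) :=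
  ⟨kr H, by
    rw [Unitary.mem_iff, ← map_star, h1, ← map_mul, h2, map_one]
    exact ⟨rfl, rfl⟩⟩

/-- the conjugated controlled sign -/
noncomputable def uC (H : Matrix L L ℂ) (h1 : star H = H) (h2 : H * H = 1) (δ : L → Bool) :
    unitary (Matrix (L × Bool) (L × Bool) ℂ) := uH H h1 h2 * uB δ * (uH H h1 h2)⁻¹

theorem uAB (ε : L → Bool) : ((uA L * uB ε * (uA L)⁻¹ * (uB ε)⁻¹ :
    unitary (Matrix (L × Bool) (L × Bool) ℂ)) : Matrix (L × Bool) (L × Bool) ℂ) =
      kr (Matrix.diagonal (fun i => sg (ε i))) := by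
  have h : ((uA L * uB ε * (uA L)⁻¹ * (uB ε)⁻¹ :
    unitary (Matrix (L × Bool) (L × Bool) ℂ)) : Matrix (L × Bool) (L × Bool) ℂ) =
      mA L * mB ε * star (mA L) * star (mB ε) := rfl
  rw [h, mA_star, mB_star, mAB]

theorem uAH (H : Matrix L L ℂ) (h1 : star H = H) (h2 : H * H = 1) :
    uA L * uH H h1 h2 = uH H h1 h2 * uA L := by
  apply Subtype.ext
  show mA L * kr H = kr H * mA L
  rw [mA, kr_apply, ← Matrix.mul_kronecker_mul, ← Matrix.mul_kronecker_mul]
  simp

theorem grp_id {G : Type*} [Group G] (a b h : G) (hc : a * h = h * a) :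
    a * (h * b * h⁻¹) * a⁻¹ * (h * b * h⁻¹)⁻¹ = h * (a * b * a⁻¹ * b⁻¹) * h⁻¹ := by
  have h3 : h⁻¹ * a⁻¹ = a⁻¹ * h⁻¹ := by
    rw [← _root_.mul_inv_rev, ← _root_.mul_inv_rev, hc]
  calc a * (h * b * h⁻¹) * a⁻¹ * (h * b * h⁻¹)⁻¹
      = (a * h) * b * (h⁻¹ * a⁻¹) * (h * b⁻¹ * h⁻¹) := by group
    _ = (h * a) * b * (a⁻¹ * h⁻¹) * (h * b⁻¹ * h⁻¹) := by rw [hc, h3]
    _ = h * (a * b * a⁻¹ * b⁻¹) * h⁻¹ := by group

/-- the product of the two commutators -/
theorem uABC (H : Matrix L L ℂ) (h1 : star H = H) (h2 : H * H = 1) (ε δ : L → Bool) :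
    (((uA L * uB ε * (uA L)⁻¹ * (uB ε)⁻¹) *
      (uA L * uC H h1 h2 δ * (uA L)⁻¹ * (uC H h1 h2 δ)⁻¹) :
      unitary (Matrix (L × Bool) (L × Bool) ℂ)) : Matrix (L × Bool) (L × Bool) ℂ) =
      kr (uu H ε δ) := by
  have e1 : uA L * uC H h1 h2 δ * (uA L)⁻¹ * (uC H h1 h2 δ)⁻¹ =
      uH H h1 h2 * (uA L * uB δ * (uA L)⁻¹ * (uB δ)⁻¹) * (uH H h1 h2)⁻¹ :=
    grp_id _ _ _ (uAH H h1 h2)
  rw [e1]
  have e2 : (((uA L * uB ε * (uA L)⁻¹ * (uB ε)⁻¹) *
      (uH H h1 h2 * (uA L * uB δ * (uA L)⁻¹ * (uB δ)⁻¹) * (uH H h1 h2)⁻¹) :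
      unitary (Matrix (L × Bool) (L × Bool) ℂ)) : Matrix (L × Bool) (L × Bool) ℂ) =
      ((uA L * uB ε * (uA L)⁻¹ * (uB ε)⁻¹ :
        unitary (Matrix (L × Bool) (L × Bool) ℂ)) : Matrix (L × Bool) (L × Bool) ℂ) *
      (kr H * ((uA L * uB δ * (uA L)⁻¹ * (uB δ)⁻¹ :
        unitary (Matrix (L × Bool) (L × Bool) ℂ)) : Matrix (L × Bool) (L × Bool) ℂ) *
        star (kr H)) := rfl
  rw [e2, uAB, uAB, ← map_star, h1, ← map_mul, ← map_mul, ← map_mul]
  rfl

end

end Pool.Agent.Helper687.MU
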