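import Pool.Agent.Helper687_MU.Tens

/-!
# The homomorphism from an infinite product of unitary groups to the matrix ultraproduct
-/

set_option autoImplicit false

namespace Pool.Agent.Helper687.MU

open Filter Topology Matrix
open scoped Matrix.Norms.L2Operator Kronecker

theorem norm_one_le_gen (L : Type) [Fintype L] [DecidableEq L] : ‖(1 : Matrix L L ℂ)‖ ≤ 1 := by
  have := Matrix.l2_opNorm_diagonal (n := L) (𝕜 := ℂ) (fun _ => 1)
  rw [Matrix.diagonal_one] at this
  rw [this]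
  exact (pi_norm_le_iff_of_nonneg zero_le_one).2 (fun i => by simp)

theorem norm_le_one_of_star_mul {L : Type} [Fintype L] [DecidableEq L] {u : Matrix L L ℂ}
    (h : star u * u = 1) : ‖u‖ ≤ 1 := by
  have h2 : ‖u‖ * ‖u‖ ≤ 1 := by
    rw [← CStarRing.norm_star_mul_self, h]
    exact norm_one_le_gen L
  nlinarith [norm_nonneg u]

variable (ι : ℕ → Type) [∀ i, Fintype (ι i)] [∀ i, DecidableEq (ι i)] [∀ i, Nonempty (ι i)]

/-- number of tensor factors used in dimension `n` -/
noncomputable def kk (n : ℕ) : ℕ :=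
  Nat.findGreatest (fun k => Fintype.card (Lam ι k) ^ 2 ≤ n) n

omit [∀ i, DecidableEq (ι i)] [∀ i, Nonempty (ι i)] in
theorem kk_spec {n : ℕ} (hn : 1 ≤ n) : Fintype.card (Lam ι (kk ι n)) ^ 2 ≤ n := by
  refine Nat.findGreatest_spec (P := fun k => Fintype.card (Lam ι k) ^ 2 ≤ n) (m := 0)
    (Nat.zero_le n) ?_
  have : Fintype.card (Lam ι 0) = 1 := by
    rw [Fintype.card_eq_one_iff_nonempty_unique]
    exact ⟨⟨⟨fun i => i.elim0⟩, fun x => by funext i; exact i.elim0⟩⟩
  rw [this]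
  simpa using hn

variable (V : Ultrafilter ℕ)

omit [∀ i, DecidableEq (ι i)] [∀ i, Nonempty (ι i)] in
theorem lt_kk (hV : (V : Filter ℕ) ≤ cofinite) (i : ℕ) : ∀ᶠ n in (V : Filter ℕ), i < kk ι n := by
  rw [Nat.cofinite_eq_atTop] at hV
  filter_upwards [hV (eventually_ge_atTop (Fintype.card (Lam ι (i + 1)) ^ 2)),
    hV (eventually_ge_atTop (i + 1))] with n h1 h2
  exact Nat.le_findGreatest (P := fun k => Fintype.card (Lam ι k) ^ 2 ≤ n) h2 h1

theorem emb_one_lim (hV : (V : Filter ℕ) ≤ cofinite) :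
    Tendsto (fun n => nrm2 (emb (Lam ι (kk ι n)) n 1 - 1)) V (𝓝 0) := by
  rw [Nat.cofinite_eq_atTop] at hV
  have h1 : Tendsto (fun n : ℕ => 1 / Real.sqrt n) V (𝓝 0) := by
    have : Tendsto (fun n : ℕ => 1 / Real.sqrt n) atTop (𝓝 0) := by
      refine Tendsto.const_div_atTop ?_ 1
      exact (Real.tendsto_sqrt_atTop).comp tendsto_natCast_atTop_atTop
    exact this.mono_left hV
  have h2 : Tendsto (fun n => nrm2 (emb (Lam ι (kk ι n)) n 1 - 1) ^ 2) V (𝓝 0) := by
    refine squeeze_zero' (Eventually.of_forall fun n => sq_nonneg _) ?_ h1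
    filter_upwards [hV (eventually_ge_atTop 1)] with n hn
    have hn' : (0 : ℝ) < n := by exact_mod_cast hn
    rw [emb_one_sub]
    have hpos : 0 < Fintype.card (Lam ι (kk ι n)) := Fintype.card_pos
    have h3 : ((n % Fintype.card (Lam ι (kk ι n)) : ℕ) : ℝ) ≤ Fintype.card (Lam ι (kk ι n)) := by
      exact_mod_cast (Nat.mod_lt _ hpos).le
    have h4 : (Fintype.card (Lam ι (kk ι n)) : ℝ) ≤ Real.sqrt n := by
      apply Real.le_sqrt_of_sq_le
      exact_mod_cast kk_spec ι hn
    rw [div_le_div_iff₀ hn' (Real.sqrt_pos.2 hn')]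
    have h5 : Real.sqrt n * Real.sqrt n = n := Real.mul_self_sqrt hn'.le
    nlinarith [Real.sqrt_nonneg (n : ℝ)]
  have h3 := h2.sqrt
  rw [Real.sqrt_zero] at h3
  refine h3.congr (fun n => ?_)
  exact Real.sqrt_sq (nrm2_nonneg _)

/-- the infinite tensor product of a sequence of unitaries -/
noncomputable def piSeq (w : (i : ℕ) → unitary (Matrix (ι i) (ι i) ℂ)) : BddSeq :=
  ⟨fun n => emb (Lam ι (kk ι n)) n (tens (kk ι n) (fun i => (w i : Matrix (ι i) (ι i) ℂ))), 1,
    fun n => by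
      refine (emb_norm n _).trans (norm_le_one_of_star_mul ?_)
      rw [tens_star, tens_mul, ← tens_one]
      congr 1
      funext i
      exact Unitary.star_mul_self_of_mem (w i).2⟩

/-- the homomorphism `∏ U(n_i) → U(M^V)` -/
noncomputable def piHom (hV : (V : Filter ℕ) ≤ cofinite) :
    ((i : ℕ) → unitary (Matrix (ι i) (ι i) ℂ)) →* MatUlt V where
  toFun w := cls V (piSeq ι w)
  map_one' := by
    rw [← map_one (cls V), cls_eq_iff]
    refine (emb_one_lim ι V hV).congr (fun n => ?_)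
    have : tens (kk ι n) (fun i => (((1 : (i : ℕ) → unitary (Matrix (ι i) (ι i) ℂ)) i :
        unitary (Matrix (ι i) (ι i) ℂ)) : Matrix (ι i) (ι i) ℂ)) = 1 := tens_one _
    show _ = nrm2 (emb (Lam ι (kk ι n)) n (tens (kk ι n) (fun i =>
      (((1 : (i : ℕ) → unitary (Matrix (ι i) (ι i) ℂ)) i :
        unitary (Matrix (ι i) (ι i) ℂ)) : Matrix (ι i) (ι i) ℂ))) - 1)
    rw [this]
  map_mul' w w' := by
    rw [← map_mul]
    congr 1
    apply Subtype.ext
    funext n
    show emb (Lam ι (kk ι n)) n _ = emb (Lam ι (kk ι n)) n _ * emb (Lam ι (kk ι n)) n _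
    rw [← map_mul, tens_mul]
    rfl

theorem star_piHom (hV : (V : Filter ℕ) ≤ cofinite)
    (w : (i : ℕ) → unitary (Matrix (ι i) (ι i) ℂ)) :
    star (piHom ι V hV w) = piHom ι V hV w⁻¹ := by
  show star (cls V (piSeq ι w)) = cls V (piSeq ι w⁻¹)
  rw [star_cls]
  congr 1
  apply Subtype.ext
  funext n
  show star (emb (Lam ι (kk ι n)) n _) = emb (Lam ι (kk ι n)) n _
  rw [← map_star, tens_star]
  rfl

/-- one tensor factor in dimension `n` -/
noncomputable def phi (i n : ℕ) : Matrix (ι i) (ι i) ℂ →⋆ₙₐ[ℂ] Mat n :=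
  if h : i < kk ι n then (emb (Lam ι (kk ι n)) n).comp (tensHom h) else 0

/-- one tensor factor -/
noncomputable def rhoSeq (i : ℕ) (m : Matrix (ι i) (ι i) ℂ) : BddSeq :=
  ⟨fun n => phi ι i n m, ‖m‖, fun n => NonUnitalStarAlgHom.norm_apply_le (phi ι i n) m⟩

theorem phi_apply {i n : ℕ} (h : i < kk ι n) (m : Matrix (ι i) (ι i) ℂ) :
    phi ι i n m = emb (Lam ι (kk ι n)) n (tens (kk ι n) (upd i m)) := by
  rw [phi, dif_pos h]
  rfl

theorem upd_one (i : ℕ) : upd i (1 : Matrix (ι i) (ι i) ℂ) = fun _ => 1 := by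
  funext j
  by_cases h : j = i
  · subst h; simp [upd_same]
  · simp [upd_ne _ h]

theorem cls_rhoSeq_one (hV : (V : Filter ℕ) ≤ cofinite) (i : ℕ) : cls V (rhoSeq ι i 1) = 1 := by
  rw [← map_one (cls V), cls_eq_iff]
  refine (emb_one_lim ι V hV).congr' ?_
  filter_upwards [lt_kk ι V hV i] with n hn
  show _ = nrm2 (phi ι i n 1 - 1)
  rw [phi_apply ι hn, upd_one, tens_one]

/-- one tensor factor as a unital homomorphism -/
noncomputable def rho (hV : (V : Filter ℕ) ≤ cofinite) (i : ℕ) :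
    Matrix (ι i) (ι i) ℂ →⋆ₐ[ℂ] MatUlt V where
  toFun m := cls V (rhoSeq ι i m)
  map_one' := cls_rhoSeq_one ι V hV i
  map_mul' m m' := by
    rw [← map_mul]
    congr 1
    apply Subtype.ext
    funext n
    exact map_mul (phi ι i n) m m'
  map_zero' := by
    rw [← map_zero (cls V)]
    congr 1
    apply Subtype.ext
    funext n
    exact map_zero (phi ι i n)
  map_add' m m' := by
    rw [← map_add]
    congr 1
    apply Subtype.ext
    funext n
    exact map_add (phi ι i n) m m'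
  commutes' c := by
    rw [Algebra.algebraMap_eq_smul_one, Algebra.algebraMap_eq_smul_one,
      ← cls_rhoSeq_one ι V hV i, ← map_smul]
    congr 1
    apply Subtype.ext
    funext n
    exact map_smul (phi ι i n) c 1
  map_star' m := by
    rw [star_cls]
    congr 1
    apply Subtype.ext
    funext n
    exact map_star (phi ι i n) m

theorem piHom_mulSingle (hV : (V : Filter ℕ) ≤ cofinite) (i : ℕ)
    (u : unitary (Matrix (ι i) (ι i) ℂ)) :
    piHom ι V hV (Pi.mulSingle i u) = rho ι V hV i u := by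
  show cls V (piSeq ι (Pi.mulSingle i u)) = cls V (rhoSeq ι i u)
  rw [cls_eq_iff]
  refine tendsto_const_nhds.congr' ?_
  filter_upwards [lt_kk ι V hV i] with n hn
  have h1 : (fun j => (((Pi.mulSingle i u : (i : ℕ) → unitary (Matrix (ι i) (ι i) ℂ)) j :
      unitary (Matrix (ι j) (ι j) ℂ)) : Matrix (ι j) (ι j) ℂ)) = upd i (u : Matrix (ι i) (ι i) ℂ) := by
    funext j
    by_cases h : j = i
    · subst h; simp [upd_same]
    · simp [upd_ne _ h, Pi.mulSingle_eq_of_ne h]
  show 0 = nrm2 (emb (Lam ι (kk ι n)) n (tens (kk ι n) (fun j =>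
    (((Pi.mulSingle i u : (i : ℕ) → unitary (Matrix (ι i) (ι i) ℂ)) j :
      unitary (Matrix (ι j) (ι j) ℂ)) : Matrix (ι j) (ι j) ℂ))) - phi ι i n u)
  rw [h1, phi_apply ι hn, sub_self, nrm2_zero]

end Pool.Agent.Helper687.MU
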