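import Pool.Agent.Helper687_MU.Had
import Pool.Agent.Helper687_MU.PiHom
import Pool.Agent.Helper687_MU.Comb

/-!
# No matrix ultraproduct embeds in `W*(S^U)`
-/

set_option autoImplicit false

namespace Pool.Agent.Helper687.MU

open Filter Topology Matrix
open scoped Matrix.Norms.L2Operator Kronecker

/-- the index type of the Hadamard matrix used in the `i`-th factor -/
abbrev LL (i : ℕ) : Type := Lam (fun _ => Bool) (8 * i + 19)

theorem card_LL (i : ℕ) : 72 * (8 * ((i : ℝ) ^ 2 + 1)) ^ 4 ≤ (Fintype.card (LL i) : ℝ) := by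
  have h1 : (i : ℝ) ^ 2 + 1 ≤ 4 ^ i := by
    have : i ^ 2 + 1 ≤ 4 ^ i := by
      induction i with
      | zero => norm_num
      | succ k ih =>
        rw [pow_succ 4 k]
        nlinarith [Nat.one_le_pow k 4 (by norm_num)]
    exact_mod_cast this
  have h2 : (8 * ((i : ℝ) ^ 2 + 1)) ^ 4 ≤ (8 * 4 ^ i) ^ 4 :=
    pow_le_pow_left₀ (by positivity) (by linarith) 4
  have h3 : (Fintype.card (LL i) : ℝ) = 2 ^ (8 * i + 19) := by
    rw [card_Lam]; push_cast; ring
  rw [h3]
  have h4 : (2 : ℝ) ^ (8 * i + 19) = (4 ^ i) ^ 4 * 2 ^ 19 := by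
    rw [pow_add, pow_mul, ← pow_mul, ← pow_mul, show (4 : ℝ) = 2 ^ 2 by norm_num, ← pow_mul]
    congr 2
    ring
  rw [h4, mul_pow] at *
  have h5 : (0 : ℝ) ≤ (4 ^ i) ^ 4 := by positivity
  nlinarith

/-- restriction of a sequence to a set of indices -/
noncomputable def res {G : ℕ → Type*} [∀ i, Group (G i)] (J : Set ℕ) (w : (i : ℕ) → G i) :
    (i : ℕ) → G i := by
  classical
  exact fun i => if i ∈ J then w i else 1

theorem res_mem {G : ℕ → Type*} [∀ i, Group (G i)] {J : Set ℕ} (w : (i : ℕ) → G i) {i : ℕ}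
    (h : i ∈ J) : res J w i = w i := by simp [res, h]

theorem res_not_mem {G : ℕ → Type*} [∀ i, Group (G i)] {J : Set ℕ} (w : (i : ℕ) → G i) {i : ℕ}
    (h : i ∉ J) : res J w i = 1 := by simp [res, h]

/-- the commutator of two restrictions with a single common index -/
theorem res_comm {G : ℕ → Type*} [∀ i, Group (G i)] {J J' : Set ℕ} {i : ℕ}
    (h : ∀ j, (j ∈ J ∧ j ∈ J') ↔ j = i) (a b : (i : ℕ) → G i) :
    res J a * res J' b * (res J a)⁻¹ * (res J' b)⁻¹ =
      Pi.mulSingle i (a i * b i * (a i)⁻¹ * (b i)⁻¹) := by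
  funext j
  by_cases hj : j = i
  · subst hj
    obtain ⟨h1, h2⟩ := (h j).2 rfl
    simp [res_mem _ h1, res_mem _ h2]
  · rw [Pi.mulSingle_eq_of_ne hj]
    have h3 : j ∉ J ∨ j ∉ J' := by
      by_contra hcon
      push Not at hcon
      exact hj ((h j).1 hcon)
    rcases h3 with h3 | h3
    · simp [res_not_mem _ h3]
    · simp [res_not_mem _ h3]

variable (U : Ultrafilter ℕ)

/-- a word of length eight -/
theorem good_word (f : ℕ → ℕ) : ∃ h : ℕ → ℕ, ∀ x y z : MatUlt U, Good U f x → Good U f y →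
    Good U f z → Good U h ((x * y * star x * star y) * (x * z * star x * star z)) := by
  obtain ⟨f1, h1⟩ := Good.mul U f f
  obtain ⟨f2, h2⟩ := Good.mul U f1 f
  obtain ⟨f3, h3⟩ := Good.mul U f2 f
  obtain ⟨f4, h4⟩ := Good.mul U f3 f3
  refine ⟨f4, fun x y z hx hy hz => h4 _ _ ?_ ?_⟩
  · exact h3 _ _ (h2 _ _ (h1 _ _ hx hy) hx.star) hy.star
  · exact h3 _ _ (h2 _ _ (h1 _ _ hx hz) hx.star) hz.star

theorem main_thm (U V : Ultrafilter ℕ) (hU : (U : Filter ℕ) ≤ cofinite)
    (hV : (V : Filter ℕ) ≤ cofinite) (θ : MatUlt V →⋆ₐ[ℂ] MatUlt U)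
    (hθ : ∀ x, θ x ∈ WStar U) : False := by
  -- the bad unitaries
  have hbad : ∀ i : ℕ, ∃ p : (LL i → Bool) × (LL i → Bool), ∀ a ∈ Cx U i,
      1 / 2 ≤ nrmU U (θ (rho (fun i => LL i × Bool) V hV i (kr (uu (had (8 * i + 19)) p.1 p.2))) -
        a) := by
    intro i
    obtain ⟨ε, δ, h⟩ := finite_est U hU
      (θ.comp ((rho (fun i => LL i × Bool) V hV i).comp (kr (L := LL i))))
      (had_star (8 * i + 19)) (had_mul (8 * i + 19)) (had_norm (8 * i + 19)) i (card_LL i)
    exact ⟨(ε, δ), h⟩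
  choose p hp using hbad
  -- the families
  let a : (i : ℕ) → unitary (Matrix (LL i × Bool) (LL i × Bool) ℂ) := fun i => uA (LL i)
  let b : (i : ℕ) → unitary (Matrix (LL i × Bool) (LL i × Bool) ℂ) := fun i => uB (p i).1
  let c : (i : ℕ) → unitary (Matrix (LL i × Bool) (LL i × Bool) ℂ) := fun i =>
    uC (had (8 * i + 19)) (had_star _) (had_mul _) (p i).2
  let Φ := piHom (fun i => LL i × Bool) V hV
  choose ka hka using fun α : ℕ → Bool => exists_good U (hθ (Φ (res (JJ false α) a)))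
  choose kb hkb using fun α : ℕ → Bool => exists_good U (hθ (Φ (res (JJ true α) b)))
  choose kc hkc using fun α : ℕ → Bool => exists_good U (hθ (Φ (res (JJ true α) c)))
  obtain ⟨S, f, hS, hf⟩ := exists_infinite_bounded
    (fun α m => max (ka α m) (max (kb α m) (kc α m)))
  obtain ⟨h, hh⟩ := good_word U f
  obtain ⟨α, hα, β, hβ, i, hi, hij⟩ := exists_split hS (h 2)
  have ga : Good U f (θ (Φ (res (JJ false α) a))) :=
    (hka α).mono U (fun m => (le_max_left _ _).trans (hf α hα m))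
  have gb : Good U f (θ (Φ (res (JJ true β) b))) :=
    (hkb β).mono U (fun m => ((le_max_left _ _).trans (le_max_right _ _)).trans (hf β hβ m))
  have gc : Good U f (θ (Φ (res (JJ true β) c))) :=
    (hkc β).mono U (fun m => ((le_max_right _ _).trans (le_max_right _ _)).trans (hf β hβ m))
  have hword := hh _ _ _ ga gb gc
  -- evaluate the word
  have e1 : ∀ w : (i : ℕ) → unitary (Matrix (LL i × Bool) (LL i × Bool) ℂ),
      star (θ (Φ w)) = θ (Φ w⁻¹) := by
    intro w
    rw [← map_star, star_piHom]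
  have e2 : (θ (Φ (res (JJ false α) a)) * θ (Φ (res (JJ true β) b)) *
      star (θ (Φ (res (JJ false α) a))) * star (θ (Φ (res (JJ true β) b)))) *
      (θ (Φ (res (JJ false α) a)) * θ (Φ (res (JJ true β) c)) *
      star (θ (Φ (res (JJ false α) a))) * star (θ (Φ (res (JJ true β) c)))) =
      θ (rho (fun i => LL i × Bool) V hV i
        (kr (uu (had (8 * i + 19)) (p i).1 (p i).2))) := by
    rw [e1, e1, e1]
    simp only [← map_mul]
    rw [res_comm hij, res_comm hij, ← Pi.mulSingle_mul]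
    congr 1
    have e3 := piHom_mulSingle (fun i => LL i × Bool) V hV i
      ((a i * b i * (a i)⁻¹ * (b i)⁻¹) * (a i * c i * (a i)⁻¹ * (c i)⁻¹))
    refine e3.trans ?_
    congr 1
    exact uABC _ _ _ _ _
  rw [e2] at hword
  obtain ⟨x, hx, hx'⟩ := hword.appr 1
  have h1 := hp i x (Cx_mono U hi hx)
  norm_num at hx' h1
  linarith

end Pool.Agent.Helper687.MU
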